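import Pool.Agent.Lib.MP_688fd0_co.TE.H12.Brk
import Pool.Agent.Lib.MP_688fd0_co.TF.Iface5

/-!
# Theorem F, module BRKF (remaining part of `E3`; port of TE BRK)
-/

namespace Pool.Agent.Lib.MP_688fd0_co.TF.H80

open Finset
open Pool.Agent.Lib.MP_688fd0_co.TE Pool.Agent.Lib.MP_688fd0_co.TE.H12
open Pool.Agent.Lib.MP_688fd0_co.TF

universe u

section gads

variable {G : Type u} [Group G] [Fintype G] [DecidableEq G] {c : TF.Ctx G} {N : ℕ}
  (g : TF.Gad c N)

/-- Gadget vertices of kind `τ`. -/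
def Wt (τ : Bool) (w : G) : Prop := ∃ e ∈ g.res.E τ, w ∈ g.Vs τ e

theorem W_le (w : G) : ind (g.W w) ≤ ind (Wt g false w) + ind (Wt g true w) := by
  by_cases h : g.W w
  · rw [ind_of h]
    obtain ⟨τ, hτ⟩ := h
    cases τ
    · have : Wt g false w := hτ
      rw [ind_of this]
      linarith [ind_nonneg (Wt g true w)]
    · have : Wt g true w := hτ
      rw [ind_of this]
      linarith [ind_nonneg (Wt g false w)]
  · rw [ind_not h]
    exact add_nonneg (ind_nonneg _) (ind_nonneg _)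

/-- At most one gadget contains a vertex. -/
theorem one_gad {τ τ' : Bool} {e e' : G × G} {x : G} (he : e ∈ g.res.E τ) (he' : e' ∈ g.res.E τ')
    (h : x ∈ g.Vs τ e) (h' : x ∈ g.Vs τ' e') : (τ, e) = (τ', e') := by
  by_contra hne
  exact Finset.disjoint_left.mp (g.disj τ τ' e e' he he' hne) h h'

theorem i_mem {τ : Bool} {e : G × G} (he : e ∈ g.res.E τ) : g.i τ e ∈ g.Vs τ e := by
  have hk := g.ok τ e he
  exact (hk.av _).1 (List.mem_of_mem_head? hk.ah)

theorem o_mem {τ : Bool} {e : G × G} (he : e ∈ g.res.E τ) : g.o τ e ∈ g.Vs τ e := by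
  have hk := g.ok τ e he
  exact (hk.av _).1 (List.mem_of_getLast? hk.al)

/-- Rows or columns in terms of the gadgets. -/
theorem rr_eq (pt : Bool → G × G → G) (hpt : ∀ τ, ∀ e ∈ g.res.E τ, pt τ e ∈ g.Vs τ e) (x : G) :
    ind (¬ g.W x ∨ ∃ τ, ∃ e ∈ g.res.E τ, x = pt τ e) =
      1 - ∑ τ, ∑ e ∈ g.res.E τ, (ind (x ∈ g.Vs τ e) - ind (x = pt τ e)) := by
  rw [Finset.sum_sigma']
  by_cases hW : g.W x
  · obtain ⟨τ0, e0, he0, hx0⟩ := hW
    rw [Finset.sum_eq_single (⟨τ0, e0⟩ : (_ : Bool) × (G × G))]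
    · dsimp only
      rw [ind_of hx0]
      have h1 : (¬ g.W x ∨ ∃ τ, ∃ e ∈ g.res.E τ, x = pt τ e) ↔ x = pt τ0 e0 := by
        constructor
        · rintro (h | ⟨τ, e, he, hx⟩)
          · exact absurd ⟨τ0, e0, he0, hx0⟩ h
          · have h2 : (τ, e) = (τ0, e0) := one_gad g he he0 (by rw [hx]; exact hpt τ e he) hx0
            obtain ⟨rfl, rfl⟩ := Prod.mk.inj h2
            exact hx
        · intro h
          exact Or.inr ⟨τ0, e0, he0, h⟩
      rw [show ind (¬ g.W x ∨ ∃ τ, ∃ e ∈ g.res.E τ, x = pt τ e) = ind (x = pt τ0 e0) by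
        congr 1; exact propext h1]
      ring
    · rintro ⟨τ, e⟩ hm hne
      have he : e ∈ g.res.E τ := by simpa using hm
      dsimp only
      have h1 : x ∉ g.Vs τ e := by
        intro h
        have h2 := one_gad g he he0 h hx0
        obtain ⟨rfl, rfl⟩ := Prod.mk.inj h2
        exact hne rfl
      have h3 : x ≠ pt τ e := by
        intro h
        exact h1 (by rw [h]; exact hpt τ e he)
      rw [ind_not h1, ind_not h3, sub_zero]
    · intro h
      exact absurd (by simpa using he0) h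
  · rw [Finset.sum_eq_zero]
    · rw [ind_of (Or.inl hW), sub_zero]
    · rintro ⟨τ, e⟩ hm
      have he : e ∈ g.res.E τ := by simpa using hm
      have h1 : x ∉ g.Vs τ e := fun h => hW ⟨τ, e, he, h⟩
      have h3 : x ≠ pt τ e := by
        intro h
        exact h1 (by rw [h]; exact hpt τ e he)
      dsimp only
      rw [ind_not h1, ind_not h3, sub_zero]

omit [Group G] in
theorem ind_sum_mem (Vs : Finset G) (F : G → ℝ) : ∑ x, ind (x ∈ Vs) * F x = ∑ x ∈ Vs, F x := by
  rw [← Finset.sum_filter_add_sum_filter_not Finset.univ (fun x => x ∈ Vs)]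
  have h1 : ∑ x ∈ Finset.univ.filter (fun x => ¬ x ∈ Vs), ind (x ∈ Vs) * F x = 0 := by
    apply Finset.sum_eq_zero
    intro x hx
    rw [Finset.mem_filter] at hx
    rw [ind_not hx.2, zero_mul]
  rw [h1, add_zero]
  have h2 : Finset.univ.filter (fun x => x ∈ Vs) = Vs := by
    ext x; simp
  rw [h2]
  apply Finset.sum_congr rfl
  intro x hx
  rw [ind_of hx, one_mul]

omit [Group G] [DecidableEq G] in
theorem ind_sum_eq (a : G) (F : G → ℝ) : ∑ x, ind (x = a) * F x = F a := by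
  classical
  rw [Finset.sum_eq_single a]
  · rw [ind_of rfl, one_mul]
  · intro b _ hb
    rw [ind_not hb, zero_mul]
  · simp

theorem rr_sum (pt : Bool → G × G → G) (hpt : ∀ τ, ∀ e ∈ g.res.E τ, pt τ e ∈ g.Vs τ e)
    (F : G → ℝ) :
    ∑ x, ind (¬ g.W x ∨ ∃ τ, ∃ e ∈ g.res.E τ, x = pt τ e) * F x =
      ∑ x, F x - ∑ τ, ∑ e ∈ g.res.E τ, (∑ x ∈ g.Vs τ e, F x - F (pt τ e)) := by
  have h1 : ∀ x, ind (¬ g.W x ∨ ∃ τ, ∃ e ∈ g.res.E τ, x = pt τ e) * F x =
      F x - ∑ τ, ∑ e ∈ g.res.E τ, (ind (x ∈ g.Vs τ e) * F x - ind (x = pt τ e) * F x) := by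
    intro x
    rw [rr_eq g pt hpt x, sub_mul, one_mul, Finset.sum_mul]
    congr 1
    apply Finset.sum_congr rfl
    intro τ _
    rw [Finset.sum_mul]
    apply Finset.sum_congr rfl
    intro e _
    ring
  rw [Finset.sum_congr rfl (fun x _ => h1 x), Finset.sum_sub_distrib]
  congr 1
  rw [Finset.sum_comm]
  apply Finset.sum_congr rfl
  intro τ _
  rw [Finset.sum_comm]
  apply Finset.sum_congr rfl
  intro e _
  rw [Finset.sum_sub_distrib, ind_sum_mem, ind_sum_eq]

/-- Weights of the path arcs of kind `τ`. -/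
noncomputable def th (τ : Bool) (x y : G) : ℝ := ∑ e ∈ g.res.E τ, tl (g.Pa τ e) x y

theorem th_nonneg (τ : Bool) (x y : G) : 0 ≤ th g τ x y :=
  Finset.sum_nonneg (fun _ _ => tl_nonneg _ _ _)

theorem th_supp (τ : Bool) (x y : G) (h : th g τ x y ≠ 0) : x⁻¹ * y ∈ Lt c.B c.C τ := by
  obtain ⟨e, he, hne⟩ := Finset.exists_ne_zero_of_sum_ne_zero h
  exact cp_chain _ (g.ok τ e he).as _ (tl_mem _ _ _ hne)

theorem sum_ind_gad (τ : Bool) (x : G) :
    ∑ e ∈ g.res.E τ, ind (x ∈ g.Vs τ e) ≤ ind (Wt g τ x) := by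
  by_cases hW : Wt g τ x
  · obtain ⟨e0, he0, hx0⟩ := hW
    rw [ind_of (show Wt g τ x from ⟨e0, he0, hx0⟩), Finset.sum_eq_single e0]
    · exact ind_le_one _
    · intro e he hne
      apply ind_not
      intro h
      have h2 := one_gad g he he0 h hx0
      exact hne (Prod.mk.inj h2).2
    · intro h
      exact absurd he0 h
  · rw [ind_not hW, Finset.sum_eq_zero]
    intro e he
    exact ind_not (fun h => hW ⟨e, he, h⟩)

theorem lsum_ind_mem {τ : Bool} {e : G × G} (he : e ∈ g.res.E τ) (x : G) :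
    ((g.Pa τ e).map (fun v => ind (v = x))).sum = ind (x ∈ g.Vs τ e) := by
  have hk := g.ok τ e he
  rw [lsum_fin (g.Pa τ e) hk.an (g.Vs τ e) hk.av]
  by_cases hx : x ∈ g.Vs τ e
  · rw [ind_of hx, Finset.sum_eq_single x]
    · exact ind_of rfl
    · intro b _ hb
      exact ind_not hb
    · intro h; exact absurd hx h
  · rw [ind_not hx]
    apply Finset.sum_eq_zero
    intro b hb
    apply ind_not
    intro h
    exact hx (h ▸ hb)

theorem th_row (τ : Bool) (x : G) : ∑ y, th g τ x y ≤ ind (Wt g τ x) := by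
  unfold th
  rw [Finset.sum_comm]
  refine le_trans (Finset.sum_le_sum (fun e he => ?_)) (sum_ind_gad g τ x)
  rw [← lsum_ind_mem g he x]
  exact tl_row _ _

theorem th_col (τ : Bool) (y : G) : ∑ x, th g τ x y ≤ ind (Wt g τ y) := by
  unfold th
  rw [Finset.sum_comm]
  refine le_trans (Finset.sum_le_sum (fun e he => ?_)) (sum_ind_gad g τ y)
  rw [← lsum_ind_mem g he y]
  exact tl_col _ _

theorem th_sum (τ : Bool) (F : G → G → ℝ) :
    ∑ x, ∑ y, th g τ x y * F x y =
      ∑ e ∈ g.res.E τ, ((cp (g.Pa τ e)).map (fun p => F p.1 p.2)).sum := by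
  unfold th
  simp only [Finset.sum_mul]
  rw [Finset.sum_congr rfl (fun x _ => Finset.sum_comm), Finset.sum_comm]
  apply Finset.sum_congr rfl
  intro e _
  exact tl_sum _ _

/-- The algebraic identity for `E3`. -/
theorem e3_id {m : ℕ} (lv : G → ZMod m) (f h : G → ℝ) :
    g.E3 lv f h + ∑ x, ∑ y, (g.aB lv x y - g.mB x y + (g.aC lv x y - g.mC m x y)) *
      (f x - h y) =
    (∑ x, f x - ∑ y, h y) - ∑ τ, ∑ x, ∑ y, th g τ x y * (f x - h y) -
      ∑ x, ∑ y, g.mB x y * (f x - h y) - ∑ x, ∑ y, g.mC m x y * (f x - h y) := by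
  have hr : ∀ x y, ind (g.RR x) * (g.aB lv x y + g.aC lv x y) = g.aB lv x y + g.aC lv x y := by
    intro x y
    by_cases hx : g.RR x
    · rw [ind_of hx, one_mul]
    · have h1 : g.aB lv x y = 0 := by
        unfold Gad.aB
        rw [ind_not (fun hh => hx hh.1), mul_zero]
      have h2 : g.aC lv x y = 0 := by
        unfold Gad.aC
        rw [ind_not (fun hh => hx (Or.inl hh.1)), mul_zero]
      rw [h1, h2]; ring
  have hc : ∀ x y, ind (g.CC y) * (g.aB lv x y + g.aC lv x y) = g.aB lv x y + g.aC lv x y := by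
    intro x y
    by_cases hy : g.CC y
    · rw [ind_of hy, one_mul]
    · have h1 : g.aB lv x y = 0 := by
        unfold Gad.aB
        rw [ind_not (fun hh => hy hh.2.1), mul_zero]
      have h2 : g.aC lv x y = 0 := by
        unfold Gad.aC
        rw [ind_not (fun hh => hy (Or.inl hh.2.1)), mul_zero]
      rw [h1, h2]; ring
  have e1 : ∑ x, ind (g.RR x) * g.rx lv x * f x =
      ∑ x, ind (g.RR x) * f x - ∑ x, ∑ y, (g.aB lv x y + g.aC lv x y) * f x := by
    rw [← Finset.sum_sub_distrib]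
    apply Finset.sum_congr rfl
    intro x _
    unfold Gad.rx
    rw [← Finset.sum_mul, mul_sub, mul_one, Finset.mul_sum,
      Finset.sum_congr rfl (fun y _ => hr x y)]
    ring
  have e2 : ∑ y, ind (g.CC y) * g.ry lv y * h y =
      ∑ y, ind (g.CC y) * h y - ∑ x, ∑ y, (g.aB lv x y + g.aC lv x y) * h y := by
    rw [Finset.sum_comm, ← Finset.sum_sub_distrib]
    apply Finset.sum_congr rfl
    intro y _
    unfold Gad.ry
    rw [← Finset.sum_mul, mul_sub, mul_one, Finset.mul_sum,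
      Finset.sum_congr rfl (fun x _ => hc x y)]
    ring
  have e3 : ∑ x, ind (g.RR x) * f x =
      ∑ x, f x - ∑ τ, ∑ e ∈ g.res.E τ, (∑ x ∈ g.Vs τ e, f x - f (g.o τ e)) :=
    rr_sum g g.o (fun τ e he => o_mem g he) f
  have e4 : ∑ y, ind (g.CC y) * h y =
      ∑ x, h x - ∑ τ, ∑ e ∈ g.res.E τ, (∑ x ∈ g.Vs τ e, h x - h (g.i τ e)) :=
    rr_sum g g.i (fun τ e he => i_mem g he) h
  have e5 : ∑ τ, ∑ x, ∑ y, th g τ x y * (f x - h y) =
      ∑ τ, ∑ e ∈ g.res.E τ, (∑ x ∈ g.Vs τ e, f x - f (g.o τ e)) -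
        ∑ τ, ∑ e ∈ g.res.E τ, (∑ x ∈ g.Vs τ e, h x - h (g.i τ e)) := by
    rw [← Finset.sum_sub_distrib]
    apply Finset.sum_congr rfl
    intro τ _
    rw [th_sum g τ (fun x y => f x - h y), ← Finset.sum_sub_distrib]
    apply Finset.sum_congr rfl
    intro e he
    have hk := g.ok τ e he
    exact path_sum (g.Pa τ e) hk.an (g.Vs τ e) hk.av (g.i τ e) (g.o τ e) hk.ah hk.al f h
  have e6 : ∑ x, ∑ y, (g.aB lv x y - g.mB x y + (g.aC lv x y - g.mC m x y)) * (f x - h y) =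
      (∑ x, ∑ y, (g.aB lv x y + g.aC lv x y) * f x) -
      (∑ x, ∑ y, (g.aB lv x y + g.aC lv x y) * h y) -
      ∑ x, ∑ y, g.mB x y * (f x - h y) - ∑ x, ∑ y, g.mC m x y * (f x - h y) := by
    simp only [← Finset.sum_sub_distrib]
    apply Finset.sum_congr rfl
    intro x _
    apply Finset.sum_congr rfl
    intro y _
    ring
  unfold Gad.E3
  rw [e1, e2, e3, e4, e5, e6]
  ring

/-- Load of the pairs meeting gadgets. -/
theorem lght (hps : PKSF_S.{u}) (hN : 4 ≤ N) (K K' : Matrix G G ℝ) (a : ℝ) (ha : 0 ≤ a)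
    (hK0 : ∀ x y, 0 ≤ K x y) (hK1 : ∀ x, ∑ y, K x y = 1) (hK2 : ∀ x y, K x y ≤ a * K' x y)
    (hK' : c.PK 1 K') (θ : G → G → ℝ)
    (hθ : ∀ x y, θ x y ≤ K x y * (ind (g.W x) + ind (g.W y))) (M : Matrix G G ℝ)
    (hM : c.TK 3 M) (y : G) :
    ∑ x, (∑ y', θ x y') * M y x ≤ (1 + a) * (c.del false + c.del true) := by
  obtain ⟨-, -, -, -, p7, -, p9, p10, -, -, -⟩ := hps G c
  have hMnn : ∀ x y, 0 ≤ M x y := (p7 _ _ hM.1).nn
  have hK'nn : ∀ x y, 0 ≤ K' x y := (p7 _ _ hK').nn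
  have hMN : c.TK N M := p10 3 N M (by omega) hM
  have hMKN : c.TK N (M * K') := p10 4 N _ hN (p9 3 1 M K' hM hK').1
  have hl : ∀ (Q : Matrix G G ℝ), c.TK N Q →
      ∑ x, (ind (Wt g false x) + ind (Wt g true x)) * Q y x ≤ c.del false + c.del true := by
    intro Q hQ
    have h1 := g.light false Q hQ y
    have h2 := g.light true Q hQ y
    have h3 : ∑ x, (ind (Wt g false x) + ind (Wt g true x)) * Q y x =
        ∑ x, ind (Wt g false x) * Q y x + ∑ x, ind (Wt g true x) * Q y x := by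
      rw [← Finset.sum_add_distrib]
      exact Finset.sum_congr rfl (fun x _ => by ring)
    rw [h3]
    exact add_le_add h1 h2
  set ω : G → ℝ := fun x => ind (Wt g false x) + ind (Wt g true x) with hω
  have hωn : ∀ x, 0 ≤ ω x := fun x => add_nonneg (ind_nonneg _) (ind_nonneg _)
  have h1 : ∀ x, ∑ y', θ x y' ≤ ω x + a * ∑ y', K' x y' * ω y' := by
    intro x
    calc ∑ y', θ x y' ≤ ∑ y', K x y' * (ind (g.W x) + ind (g.W y')) :=
          Finset.sum_le_sum (fun y' _ => hθ x y')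
      _ ≤ ∑ y', (K x y' * ω x + a * (K' x y' * ω y')) := by
          apply Finset.sum_le_sum
          intro y' _
          have i1 := W_le g x
          have i2 := W_le g y'
          have i3 := mul_le_mul_of_nonneg_left i1 (hK0 x y')
          have i4 := mul_le_mul_of_nonneg_left i2 (hK0 x y')
          have i5 := mul_le_mul_of_nonneg_right (hK2 x y') (hωn y')
          simp only [hω] at i5 ⊢
          linarith
      _ = ω x + a * ∑ y', K' x y' * ω y' := by
          rw [Finset.sum_add_distrib, ← Finset.sum_mul, hK1, one_mul, Finset.mul_sum]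
  calc ∑ x, (∑ y', θ x y') * M y x
      ≤ ∑ x, (ω x + a * ∑ y', K' x y' * ω y') * M y x := by
        apply Finset.sum_le_sum
        intro x _
        exact mul_le_mul_of_nonneg_right (h1 x) (hMnn y x)
    _ = ∑ x, ω x * M y x + a * ∑ y', ω y' * (M * K') y y' := by
        simp only [add_mul, Finset.sum_add_distrib]
        congr 1
        simp only [Matrix.mul_apply, Finset.mul_sum, Finset.sum_mul]
        rw [Finset.sum_comm]
        apply Finset.sum_congr rfl
        intro y' _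
        apply Finset.sum_congr rfl
        intro x _
        ring
    _ ≤ (c.del false + c.del true) + a * (c.del false + c.del true) := by
        have j1 := hl M hMN
        have j2 := hl (M * K') hMKN
        exact add_le_add j1 (mul_le_mul_of_nonneg_left j2 ha)
    _ = (1 + a) * (c.del false + c.del true) := by ring

omit [Group G] [DecidableEq G] in
theorem abs_sum_sum (θ : G → G → ℝ) (hθ : ∀ x y, 0 ≤ θ x y) (f h : G → ℝ) :
    |∑ x, ∑ y, θ x y * (f x - h y)| ≤ ∑ x, ∑ y, θ x y * |f x - h y| := by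
  refine le_trans (Finset.abs_sum_le_sum_abs _ _) (Finset.sum_le_sum (fun x _ => ?_))
  refine le_trans (Finset.abs_sum_le_sum_abs _ _) (Finset.sum_le_sum (fun y _ => ?_))
  rw [abs_mul, abs_of_nonneg (hθ x y)]

end gads

theorem brkf (h1 : ETHF_S.{u}) (h2 : PKSF_S.{u}) (h3 : NUMF_S.{u}) (h4 : MAT_S.{u}) :
    BRKF_S.{u} := by
  intro G _ _ _ c N g m _ lv U0 V0 β0 β1 hN hm hβ0 hβ1 hs0 hs1
  have hX6 := (h3 G c).1
  have hXpos : 0 < c.X := by linarith
  obtain ⟨mUM, -, -, -, -, -, -, -⟩ := h4 G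
  obtain ⟨dsB, -, trB⟩ := mUM c.B c.hB
  obtain ⟨dsC, -, trC⟩ := mUM c.C c.hC
  obtain ⟨-, -, -, p4, p7, -, -, p10, -, -, -⟩ := h2 G c
  have pkB : c.PK 1 (UM c.B) := p4 _ (Or.inl rfl)
  have pkW : ∀ τ, c.PK 1 (WM c.B c.C τ) := fun τ => p4 _ (Or.inr (Or.inl ⟨τ, rfl⟩))
  have symB : ∀ x y, UM c.B x y = UM c.B y x := by
    intro x y
    conv_rhs => rw [← trB]
    rfl
  have symC : ∀ x y, UM c.C x y = UM c.C y x := by
    intro x y
    conv_rhs => rw [← trC]
    rfl
  set f := c.av U0 with hf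
  set h := c.av V0 with hh
  set D := c.del false + c.del true with hD
  -- sums of averages
  have sav : ∀ F : G → ℝ, ∑ x, c.av F x = ∑ x, F x := by
    intro F
    unfold Ctx.av
    rw [Finset.sum_comm]
    apply Finset.sum_congr rfl
    intro z _
    rw [← Finset.sum_mul, dsB.col, one_mul]
  have hfh : |∑ x, f x - ∑ y, h y| ≤ β0 := by
    obtain ⟨s, hs⟩ := c.hB.ne
    have hw : oddW c.B 7 s := ⟨1, odd_one, by norm_num, [s], rfl, by simpa using hs, by simp⟩
    rw [hf, hh, sav, sav]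
    have e1 : ∑ x, V0 x = ∑ z, V0 (z * s) :=
      (Equiv.sum_comp (Equiv.mulRight s) V0).symm
    rw [e1, ← Finset.sum_sub_distrib]
    exact le_trans (Finset.abs_sum_le_sum_abs _ _) (hs0 s hw)
  -- the general form of sums over a doubly stochastic kernel
  have dsum : ∀ K : Matrix G G ℝ, DS K → ∑ x, ∑ y, K x y * (f x - h y) =
      ∑ x, f x - ∑ y, h y := by
    intro K hK
    have e1 : ∑ x, ∑ y, K x y * (f x - h y) =
        ∑ x, ∑ y, K x y * f x - ∑ x, ∑ y, K x y * h y := by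
      simp only [← Finset.sum_sub_distrib]
      apply Finset.sum_congr rfl; intro x _
      apply Finset.sum_congr rfl; intro y _
      ring
    rw [e1]
    congr 1
    · apply Finset.sum_congr rfl; intro x _
      rw [← Finset.sum_mul, hK.row, one_mul]
    · rw [Finset.sum_comm]
      apply Finset.sum_congr rfl; intro y _
      rw [← Finset.sum_mul, hK.col, one_mul]
  -- first bracket
  set θ1 : G → G → ℝ := fun x y => UM c.B x y - g.mB x y with hθ1
  have hθ1eq : ∀ x y, θ1 x y =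
      UM c.B x y * (1 - ind (g.RR x ∧ g.CC y ∧ ¬ (g.W x ∧ g.W y))) := by
    intro x y
    rw [hθ1]
    unfold Gad.mB
    ring
  have hθ1n : ∀ x y, 0 ≤ θ1 x y := by
    intro x y
    rw [hθ1eq]
    exact mul_nonneg (dsB.nn x y) (by linarith [ind_le_one (g.RR x ∧ g.CC y ∧ ¬ (g.W x ∧ g.W y))])
  have hW2 : ∀ (x y : G) (P : Prop), (¬ g.W x → ¬ g.W y → P) →
      1 - ind P ≤ ind (g.W x) + ind (g.W y) := by
    intro x y P hP
    by_cases hx : g.W x
    · rw [ind_of hx]; linarith [ind_nonneg P, ind_nonneg (g.W y)]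
    · by_cases hy : g.W y
      · rw [ind_of hy]; linarith [ind_nonneg P, ind_nonneg (g.W x)]
      · rw [ind_of (hP hx hy)]; linarith [ind_nonneg (g.W x), ind_nonneg (g.W y)]
  have hθ1l : ∀ x y, θ1 x y ≤ UM c.B x y * (ind (g.W x) + ind (g.W y)) := by
    intro x y
    rw [hθ1eq]
    apply mul_le_mul_of_nonneg_left _ (dsB.nn x y)
    exact hW2 x y _ (fun hx hy => ⟨Or.inl hx, Or.inl hy, fun hh => hx hh.1⟩)
  have hD0 : 0 ≤ c.del false ∧ 0 ≤ c.del true := by
    unfold Ctx.del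
    constructor
    · simp only [Bool.false_eq_true, if_false]; positivity
    · simp only [if_true]; positivity
  have hDn : 0 ≤ D := add_nonneg hD0.1 hD0.2
  have hsB : ∀ x y, UM c.B x y ≠ 0 → x⁻¹ * y ∈ c.B := by
    intro x y hne
    by_contra hn
    apply hne
    unfold UM
    rw [ind_not hn, zero_div]
  have hsC : ∀ x y, UM c.C x y ≠ 0 → x⁻¹ * y ∈ c.C := by
    intro x y hne
    by_contra hn
    apply hne
    unfold UM
    rw [ind_not hn, zero_div]
  have t1 : |∑ x, ∑ y, θ1 x y * (f x - h y)| ≤ c.X ^ 3 * ((1 + 1) * D) * β0 := by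
    refine le_trans (abs_sum_sum θ1 hθ1n f h) ?_
    apply h1 G c false U0 V0 β0 ((1 + 1) * D) θ1 hβ0 (by positivity)
    · intro s hs
      exact hs0 s (by simpa [Lt] using hs)
    · exact hθ1n
    · intro x y hne
      have hU : UM c.B x y ≠ 0 := by
        intro h0
        apply hne
        rw [hθ1eq, h0, zero_mul]
      simpa [Lt] using hsB x y hU
    · intro M hM y
      constructor
      · exact lght g h2 hN (UM c.B) (UM c.B) 1 zero_le_one dsB.nn dsB.row
          (fun x y => by rw [one_mul]) pkB θ1 hθ1l M hM y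
      · exact lght g h2 hN (UM c.B) (UM c.B) 1 zero_le_one dsB.nn dsB.row
          (fun x y => by rw [one_mul]) pkB (fun x y => θ1 y x)
          (fun x y => by
            have := hθ1l y x
            rw [symB x y, add_comm (ind (g.W x))]
            exact this) M hM y
  -- path arcs
  have t2 : ∀ (τ : Bool) (β : ℝ), 0 ≤ β →
      (∀ s, oddW (Lt c.B c.C τ) 7 s → ∑ z, |U0 z - V0 (z * s)| ≤ β) →
      |∑ x, ∑ y, th g τ x y * (f x - h y)| ≤ c.X ^ 3 * c.del τ * β := by
    intro τ β hβ hsτ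
    refine le_trans (abs_sum_sum (th g τ) (th_nonneg g τ) f h) ?_
    have hdτ : 0 ≤ c.del τ := by cases τ; exacts [hD0.1, hD0.2]
    apply h1 G c τ U0 V0 β (c.del τ) (th g τ) hβ hdτ hsτ (th_nonneg g τ) (th_supp g τ)
    intro M hM y
    have hMnn : ∀ x y, 0 ≤ M x y := (p7 _ _ hM.1).nn
    have hMN : c.TK N M := p10 3 N M (by omega) hM
    have hl := g.light τ M hMN y
    constructor
    · refine le_trans (Finset.sum_le_sum (fun x _ => ?_)) hl
      exact mul_le_mul_of_nonneg_right (th_row g τ x) (hMnn y x)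
    · refine le_trans (Finset.sum_le_sum (fun x _ => ?_)) hl
      exact mul_le_mul_of_nonneg_right (th_col g τ x) (hMnn y x)
  have t20 := t2 false β0 hβ0 (fun s hs => hs0 s (by simpa [Lt] using hs))
  have t21 := t2 true β1 hβ1 hs1
  -- pairs meeting gadgets in the mean C part
  set θ2 : G → G → ℝ := fun x y => UM c.C x y * (1 - ind (¬ g.W x ∧ ¬ g.W y)) with hθ2
  have hθ2n : ∀ x y, 0 ≤ θ2 x y := by
    intro x y
    exact mul_nonneg (dsC.nn x y) (by linarith [ind_le_one (¬ g.W x ∧ ¬ g.W y)])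
  have hθ2l : ∀ x y, θ2 x y ≤ UM c.C x y * (ind (g.W x) + ind (g.W y)) := by
    intro x y
    apply mul_le_mul_of_nonneg_left _ (dsC.nn x y)
    exact hW2 x y _ (fun hx hy => ⟨hx, hy⟩)
  have hCW : ∀ x y, UM c.C x y ≤ 2 * WM c.B c.C true x y := by
    intro x y
    unfold WM
    simp only [if_true, Matrix.smul_apply, Matrix.add_apply, smul_eq_mul]
    linarith [dsB.nn x y]
  have t3 : |∑ x, ∑ y, θ2 x y * (f x - h y)| ≤ c.X ^ 3 * ((1 + 2) * D) * β1 := by
    refine le_trans (abs_sum_sum θ2 hθ2n f h) ?_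
    apply h1 G c true U0 V0 β1 ((1 + 2) * D) θ2 hβ1 (by positivity) hs1 hθ2n
    · intro x y hne
      have hU : UM c.C x y ≠ 0 := by
        intro h0
        apply hne
        simp only [hθ2, h0, zero_mul]
      simp only [Lt, if_true, Finset.mem_union]
      exact Or.inr (hsC x y hU)
    · intro M hM y
      constructor
      · exact lght g h2 hN (UM c.C) (WM c.B c.C true) 2 zero_le_two dsC.nn dsC.row
          hCW (pkW true) θ2 hθ2l M hM y
      · exact lght g h2 hN (UM c.C) (WM c.B c.C true) 2 zero_le_two dsC.nn dsC.row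
          hCW (pkW true) (fun x y => θ2 y x)
          (fun x y => by
            have := hθ2l y x
            rw [symC x y, add_comm (ind (g.W x))]
            exact this) M hM y
  -- assembling
  set κ : ℝ := 1 / c.X ^ 100 / (m : ℝ) ^ 2 with hκ
  have hκn : 0 ≤ κ := by positivity
  have eC : ∑ x, ∑ y, g.mC m x y * (f x - h y) =
      κ * ((∑ x, f x - ∑ y, h y) - ∑ x, ∑ y, θ2 x y * (f x - h y)) := by
    rw [← dsum (UM c.C) dsC, ← Finset.sum_sub_distrib, Finset.mul_sum]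
    apply Finset.sum_congr rfl; intro x _
    rw [← Finset.sum_sub_distrib, Finset.mul_sum]
    apply Finset.sum_congr rfl; intro y _
    simp only [hθ2, hκ]
    unfold Gad.mC
    ring
  have eB : (∑ x, f x - ∑ y, h y) - ∑ x, ∑ y, g.mB x y * (f x - h y) =
      ∑ x, ∑ y, θ1 x y * (f x - h y) := by
    rw [← dsum (UM c.B) dsB, ← Finset.sum_sub_distrib]
    apply Finset.sum_congr rfl; intro x _
    rw [← Finset.sum_sub_distrib]
    apply Finset.sum_congr rfl; intro y _
    simp only [hθ1]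
    ring
  have key : g.E3 lv f h + ∑ x, ∑ y, (g.aB lv x y - g.mB x y + (g.aC lv x y - g.mC m x y)) *
      (f x - h y) = ∑ x, ∑ y, θ1 x y * (f x - h y)
        - (∑ x, ∑ y, th g true x y * (f x - h y) + ∑ x, ∑ y, th g false x y * (f x - h y))
        - κ * ((∑ x, f x - ∑ y, h y) - ∑ x, ∑ y, θ2 x y * (f x - h y)) := by
    rw [e3_id, ← eB, ← eC, Fintype.sum_bool]
    ring
  rw [key]
  -- numerics
  set Y : ℝ := c.X⁻¹ with hY
  have hXY : c.X * Y = 1 := mul_inv_cancel₀ hXpos.ne'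
  have hYpos : 0 < Y := inv_pos.mpr hXpos
  have hY6 : Y ≤ 1 / 10 ^ 6 := by
    rw [hY, ← one_div]
    exact one_div_le_one_div_of_le (by norm_num) hX6
  have hY1 : Y ≤ 1 := by linarith [hY6, show (1 : ℝ) / 10 ^ 6 ≤ 1 by norm_num]
  have hp : ∀ n : ℕ, 1 / c.X ^ n = Y ^ n := by intro n; rw [hY, inv_pow, one_div]
  have hdf : c.del false = Y ^ 390 := by
    unfold Ctx.del; simp only [Bool.false_eq_true, if_false]; exact hp 390
  have hdt : c.del true = Y ^ 2990 := by
    unfold Ctx.del; simp only [if_true]; exact hp 2990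
  have hDle : D ≤ 2 * Y ^ 390 := by
    rw [hD, hdf, hdt]
    have : Y ^ 2990 ≤ Y ^ 390 := pow_le_pow_of_le_one hYpos.le hY1 (by norm_num)
    linarith
  have hκle : κ ≤ Y ^ 2100 := by
    have hm1 : c.X ^ 1000 ≤ (m : ℝ) := hm.1
    have hm2 : (c.X ^ 1000) ^ 2 ≤ (m : ℝ) ^ 2 := pow_le_pow_left₀ (by positivity) hm1 2
    have hm3 : 1 / (m : ℝ) ^ 2 ≤ 1 / (c.X ^ 1000) ^ 2 :=
      one_div_le_one_div_of_le (by positivity) hm2
    have e1 : κ = Y ^ 100 * (1 / (m : ℝ) ^ 2) := by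
      rw [hκ, hp 100]; ring
    have e2 : (1 : ℝ) / (c.X ^ 1000) ^ 2 = Y ^ 2000 := by
      rw [← pow_mul]; exact hp 2000
    rw [e1]
    calc Y ^ 100 * (1 / (m : ℝ) ^ 2) ≤ Y ^ 100 * Y ^ 2000 := by
          rw [← e2]; exact mul_le_mul_of_nonneg_left hm3 (by positivity)
      _ = Y ^ 2100 := by rw [← pow_add]
  have hX3 : ∀ n : ℕ, c.X ^ 3 * Y ^ (n + 3) = Y ^ n := by
    intro n
    have : c.X ^ 3 * Y ^ (n + 3) = (c.X * Y) ^ 3 * Y ^ n := by rw [pow_add]; ring
    rw [this, hXY]; ring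
  have b1 : c.X ^ 3 * ((1 + 1) * D) * β0 ≤ 4 * Y ^ 387 * β0 := by
    apply mul_le_mul_of_nonneg_right _ hβ0
    calc c.X ^ 3 * ((1 + 1) * D) ≤ c.X ^ 3 * ((1 + 1) * (2 * Y ^ 390)) := by
          apply mul_le_mul_of_nonneg_left _ (by positivity)
          linarith
      _ = 4 * (c.X ^ 3 * Y ^ (387 + 3)) := by ring
      _ = 4 * Y ^ 387 := by rw [hX3]
  have b2 : c.X ^ 3 * c.del false * β0 = Y ^ 387 * β0 := by
    rw [hdf, show (390 : ℕ) = 387 + 3 by norm_num, hX3]
  have b3 : c.X ^ 3 * c.del true * β1 = Y ^ 2987 * β1 := by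
    rw [hdt, show (2990 : ℕ) = 2987 + 3 by norm_num, hX3]
  have b4 : κ * β0 ≤ Y ^ 2100 * β0 := mul_le_mul_of_nonneg_right hκle hβ0
  have b5 : κ * (c.X ^ 3 * ((1 + 2) * D) * β1) ≤ 6 * Y ^ 2487 * β1 := by
    rw [← mul_assoc]
    apply mul_le_mul_of_nonneg_right _ hβ1
    calc κ * (c.X ^ 3 * ((1 + 2) * D)) ≤ Y ^ 2100 * (c.X ^ 3 * ((1 + 2) * (2 * Y ^ 390))) := by
          have z1 : 0 ≤ c.X ^ 3 * ((1 + 2) * D) :=
            mul_nonneg (pow_nonneg hXpos.le 3) (mul_nonneg (by norm_num) hDn)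
          have z2 : c.X ^ 3 * ((1 + 2) * D) ≤ c.X ^ 3 * ((1 + 2) * (2 * Y ^ 390)) :=
            mul_le_mul_of_nonneg_left (by linarith) (pow_nonneg hXpos.le 3)
          exact mul_le_mul hκle z2 z1 (pow_nonneg hYpos.le 2100)
      _ = 6 * Y ^ 2100 * (c.X ^ 3 * Y ^ (387 + 3)) := by ring
      _ = 6 * Y ^ 2487 := by rw [hX3, mul_assoc, ← pow_add]
  have q1 : |κ * ((∑ x, f x - ∑ y, h y) - ∑ x, ∑ y, θ2 x y * (f x - h y))| ≤
      Y ^ 2100 * β0 + 6 * Y ^ 2487 * β1 := by
    rw [abs_mul, abs_of_nonneg hκn]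
    calc κ * |(∑ x, f x - ∑ y, h y) - ∑ x, ∑ y, θ2 x y * (f x - h y)|
        ≤ κ * (β0 + c.X ^ 3 * ((1 + 2) * D) * β1) := by
          apply mul_le_mul_of_nonneg_left _ hκn
          exact le_trans (abs_sub _ _) (add_le_add hfh t3)
      _ = κ * β0 + κ * (c.X ^ 3 * ((1 + 2) * D) * β1) := by ring
      _ ≤ _ := add_le_add b4 b5
  have fin1 : 5 * Y ^ 387 + Y ^ 2100 ≤ Y ^ 300 := by
    have e1 : Y ^ 387 ≤ Y ^ 301 := pow_le_pow_of_le_one hYpos.le hY1 (by norm_num)
    have e2 : Y ^ 2100 ≤ Y ^ 301 := pow_le_pow_of_le_one hYpos.le hY1 (by norm_num)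
    have e3 : Y ^ 301 = Y ^ 300 * Y := pow_succ _ _
    have e4 : Y ^ 300 * Y ≤ Y ^ 300 * (1 / 10 ^ 6) :=
      mul_le_mul_of_nonneg_left hY6 (by positivity)
    have e5 : 0 < Y ^ 300 := by positivity
    linarith
  have fin2 : Y ^ 2987 + 6 * Y ^ 2487 ≤ Y ^ 2400 := by
    have e1 : Y ^ 2987 ≤ Y ^ 2401 := pow_le_pow_of_le_one hYpos.le hY1 (by norm_num)
    have e2 : Y ^ 2487 ≤ Y ^ 2401 := pow_le_pow_of_le_one hYpos.le hY1 (by norm_num)
    have e3 : Y ^ 2401 = Y ^ 2400 * Y := pow_succ _ _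
    have e4 : Y ^ 2400 * Y ≤ Y ^ 2400 * (1 / 10 ^ 6) :=
      mul_le_mul_of_nonneg_left hY6 (by positivity)
    have e5 : 0 < Y ^ 2400 := by positivity
    linarith
  have g1 := mul_le_mul_of_nonneg_right fin1 hβ0
  have g2 := mul_le_mul_of_nonneg_right fin2 hβ1
  have tt1 := le_trans t1 b1
  rw [b2] at t20
  rw [b3] at t21
  rw [hp 300, hp 2400]
  rw [abs_le] at tt1 t20 t21 q1 ⊢
  constructor
  · linarith [tt1.1, tt1.2, t20.1, t20.2, t21.1, t21.2, q1.1, q1.2]
  · linarith [tt1.1, tt1.2, t20.1, t20.2, t21.1, t21.2, q1.1, q1.2]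

end Pool.Agent.Lib.MP_688fd0_co.TF.H80
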