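import Pool.Agent.Lib.MP_688fd0_co.TF.H80.AvgF

/-! Theorem F, module CENF. -/

namespace Pool.Agent.Lib.MP_688fd0_co.TF.H80

open Pool.Agent.Lib.MP_688fd0_co.TE Pool.Agent.Lib.MP_688fd0_co.TE.H15
open Pool.Agent.Lib.MP_688fd0_co.TF

universe u

section

variable {G : Type u} [Group G] [Fintype G] [DecidableEq G]

/-- telescoping of a signed sum over pairs. -/
theorem cen_one (hT : TELEF_S.{u}) (c : TF.Ctx G) (τ : Bool) (w : G → G → ℝ) (f g : G → ℝ)
    (hw : ∀ x y, w x y ≠ 0 → c.adm τ true 100 x y) (P : G → G → ℝ)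
    (hP : ∀ (j : ℕ) (v v' : G), j < c.len true →
      |∑ x, ∑ y, w x y * c.U τ true x y j v v'| ≤ P v v') :
    |∑ x, ∑ y, w x y * (f x - g y)| ≤ ∑ j ∈ Finset.range (c.len true), ∑ v, ∑ v',
      P v v' * |alt f g j v - alt f g (j + 1) v'| := by
  have e : ∑ x, ∑ y, w x y * (f x - g y) = ∑ j ∈ Finset.range (c.len true), ∑ v, ∑ v',
      (∑ x, ∑ y, w x y * c.U τ true x y j v v') * (alt f g j v - alt f g (j + 1) v') := by
    have h1 : ∀ x y, w x y * (f x - g y) = ∑ j ∈ Finset.range (c.len true), ∑ v, ∑ v',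
        w x y * c.U τ true x y j v v' * (alt f g j v - alt f g (j + 1) v') := by
      intro x y
      by_cases h : w x y = 0
      · rw [h]; simp
      rw [tele_eq hT c τ f g x y (hw x y h), Finset.mul_sum]
      refine Finset.sum_congr rfl fun j _ => ?_
      rw [Finset.mul_sum]
      refine Finset.sum_congr rfl fun v _ => ?_
      rw [Finset.mul_sum]
      exact Finset.sum_congr rfl fun v' _ => by ring
    rw [Finset.sum_congr rfl fun x _ => Finset.sum_congr rfl fun y _ => h1 x y]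
    rw [Finset.sum_congr rfl fun x _ => Finset.sum_comm, Finset.sum_comm]
    refine Finset.sum_congr rfl fun j _ => ?_
    rw [Finset.sum_congr rfl fun x _ => Finset.sum_comm, Finset.sum_comm]
    refine Finset.sum_congr rfl fun v _ => ?_
    rw [Finset.sum_congr rfl fun x _ => Finset.sum_comm, Finset.sum_comm]
    refine Finset.sum_congr rfl fun v' _ => ?_
    rw [Finset.sum_mul]
    refine Finset.sum_congr rfl fun x _ => ?_
    rw [Finset.sum_mul]
  rw [e]
  refine (Finset.abs_sum_le_sum_abs _ _).trans (Finset.sum_le_sum fun j hj => ?_)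
  refine (Finset.abs_sum_le_sum_abs _ _).trans (Finset.sum_le_sum fun v _ => ?_)
  refine (Finset.abs_sum_le_sum_abs _ _).trans (Finset.sum_le_sum fun v' _ => ?_)
  rw [abs_mul]
  exact mul_le_mul_of_nonneg_right (hP j v v' (Finset.mem_range.mp hj)) (abs_nonneg _)

theorem adm_one (c : TF.Ctx G) (τ : Bool) {x y : G} (h : x⁻¹ * y ∈ Lt c.B c.C τ) :
    c.adm τ true 100 x y := by
  simpa [Ctx.adm] using oddW_one (N := 100) (by norm_num) h

theorem cenf (hT : TELEF_S.{u}) (hNUM : NUMF_S.{u}) : CENF_S.{u} := by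
  intro G _ _ _ c N g m _ lv U0 V0 β0 β1 hβ0 hβ1 he5 h0 h1
  obtain ⟨hX6, hXk, -, hk100, -, -, hb0, hXb, -, -, -, -, -, -, -, -⟩ := hNUM G c
  have hX0 : 0 < c.X := by linarith
  have hX1 : 1 ≤ c.X := by linarith
  set f := c.av U0 with hf
  set f' := c.av V0 with hf'
  set n := c.len true with hn
  have hn' : n = 6 * c.k + 3 := by rw [hn]; simp [Ctx.len]
  have hk1' : (1 : ℝ) ≤ c.k := by exact_mod_cast (by omega : 1 ≤ c.k)
  -- L¹ bounds
  have hB : ∀ s ∈ c.B, ∑ z, |f z - f' (z * s)| ≤ β0 :=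
    avD c c.B (Finset.Subset.refl _) U0 V0 β0 h0
  have hC : ∀ s ∈ c.C, ∑ z, |f z - f' (z * s)| ≤ β1 := fun s hs =>
    avD c (Lt c.B c.C true) (sub_Lt _ _ _) U0 V0 β1 h1 s (sub_Lt' _ _ hs)
  have hBj : ∀ j, ∑ v, ∑ v', UM c.B v v' * |alt f f' j v - alt f f' (j + 1) v'| ≤ β0 :=
    alt_bound c.hB f f' β0 hβ0 hB
  have hCj : ∀ j, ∑ v, ∑ v', UM c.C v v' * |alt f f' j v - alt f f' (j + 1) v'| ≤ β1 :=
    alt_bound c.hC f f' β1 hβ1 hC
  -- the B part
  have hSB : |∑ x, ∑ y, (g.aB lv x y - g.mB x y) * (f x - f' y)| ≤ n * (1 / c.X ^ 90 * β0) := by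
    refine (cen_one hT c false (fun x y => g.aB lv x y - g.mB x y) f f' ?_
      (fun v v' => 1 / c.X ^ 90 * UM c.B v v') (fun j v v' hj => (he5 j v v' hj).1)).trans ?_
    · intro x y hw
      refine adm_one c false ?_
      by_contra hn
      have hn' : x⁻¹ * y ∉ c.B := by simpa [Lt] using hn
      apply hw
      have e1 : g.aB lv x y = 0 := by
        unfold Gad.aB
        rw [ind_not (fun h => hn' h.2.2.1), mul_zero]
      have e2 : g.mB x y = 0 := by
        unfold Gad.mB UM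
        rw [ind_not hn', zero_div, mul_zero]
      rw [e1, e2, sub_zero]
    · calc ∑ j ∈ Finset.range n, ∑ v, ∑ v',
            1 / c.X ^ 90 * UM c.B v v' * |alt f f' j v - alt f f' (j + 1) v'|
          = ∑ j ∈ Finset.range n, 1 / c.X ^ 90 * ∑ v, ∑ v',
            UM c.B v v' * |alt f f' j v - alt f f' (j + 1) v'| := by
            refine Finset.sum_congr rfl fun j _ => ?_
            rw [Finset.mul_sum]
            refine Finset.sum_congr rfl fun v _ => ?_
            rw [Finset.mul_sum]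
            exact Finset.sum_congr rfl fun v' _ => by ring
        _ ≤ ∑ j ∈ Finset.range n, 1 / c.X ^ 90 * β0 :=
            Finset.sum_le_sum fun j _ => mul_le_mul_of_nonneg_left (hBj j) (by positivity)
        _ = n * (1 / c.X ^ 90 * β0) := by rw [Finset.sum_const, Finset.card_range, nsmul_eq_mul]
  have hSC : |∑ x, ∑ y, (g.aC lv x y - g.mC m x y) * (f x - f' y)| ≤
      n * (1 / c.X ^ 90 * β0 + 1 / c.b ^ (1 / 8 : ℝ) * β1) := by
    refine (cen_one hT c true (fun x y => g.aC lv x y - g.mC m x y) f f' ?_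
      (fun v v' => 1 / c.X ^ 90 * UM c.B v v' + 1 / c.b ^ (1 / 8 : ℝ) * UM c.C v v')
      (fun j v v' hj => (he5 j v v' hj).2)).trans ?_
    · intro x y hw
      refine adm_one c true ?_
      by_contra hn
      have hn' : x⁻¹ * y ∉ c.C := fun h => hn (sub_Lt' _ _ h)
      apply hw
      have e1 : g.aC lv x y = 0 := by
        unfold Gad.aC
        rw [ind_not (fun h => hn' h.2.2.1), mul_zero]
      have e2 : g.mC m x y = 0 := by
        unfold Gad.mC UM
        rw [ind_not hn', zero_div, mul_zero, mul_zero]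
      rw [e1, e2, sub_zero]
    · calc ∑ j ∈ Finset.range n, ∑ v, ∑ v',
            (1 / c.X ^ 90 * UM c.B v v' + 1 / c.b ^ (1 / 8 : ℝ) * UM c.C v v') *
              |alt f f' j v - alt f f' (j + 1) v'|
          = ∑ j ∈ Finset.range n, (1 / c.X ^ 90 * ∑ v, ∑ v',
            UM c.B v v' * |alt f f' j v - alt f f' (j + 1) v'| +
            1 / c.b ^ (1 / 8 : ℝ) * ∑ v, ∑ v',
            UM c.C v v' * |alt f f' j v - alt f f' (j + 1) v'|) := by
            refine Finset.sum_congr rfl fun j _ => ?_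
            rw [Finset.mul_sum, Finset.mul_sum, ← Finset.sum_add_distrib]
            refine Finset.sum_congr rfl fun v _ => ?_
            rw [Finset.mul_sum, Finset.mul_sum, ← Finset.sum_add_distrib]
            exact Finset.sum_congr rfl fun v' _ => by ring
        _ ≤ ∑ j ∈ Finset.range n, (1 / c.X ^ 90 * β0 + 1 / c.b ^ (1 / 8 : ℝ) * β1) :=
            Finset.sum_le_sum fun j _ => add_le_add
              (mul_le_mul_of_nonneg_left (hBj j) (by positivity))
              (mul_le_mul_of_nonneg_left (hCj j) (by positivity))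
        _ = n * (1 / c.X ^ 90 * β0 + 1 / c.b ^ (1 / 8 : ℝ) * β1) := by
            rw [Finset.sum_const, Finset.card_range, nsmul_eq_mul]
  -- numerics
  have hnX : (2 * n : ℝ) ≤ c.X ^ 2 := by
    have h1 : (1 : ℝ) ≤ 10 ^ 6 * c.k := by
      linarith
    have h2 : (10 ^ 6 * (c.k : ℝ)) ≤ (10 ^ 6 * (c.k : ℝ)) ^ 200 := le_self_pow₀ h1 (by norm_num)
    have h3 : (n : ℝ) = 6 * c.k + 3 := by rw [hn']; push_cast; ring
    rw [h3]
    nlinarith
  have hn1 : (1 : ℝ) ≤ n := by rw [hn']; push_cast; nlinarith [Nat.cast_nonneg (α := ℝ) c.k]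
  have hb40 : (n : ℝ) ≤ c.b ^ (1 / 40 : ℝ) := by
    have h1 : (c.X ^ 2) ≤ c.b ^ (1 / 40 : ℝ) := by
      have h2 : ((c.X ^ 2) ^ 40) ^ ((40 : ℕ) : ℝ)⁻¹ = c.X ^ 2 :=
        Real.pow_rpow_inv_natCast (by positivity) (by norm_num)
      have h3 : (c.X ^ 2) ^ 40 ≤ c.b := by
        refine le_trans ?_ hXb
        rw [← pow_mul]
        exact pow_le_pow_right₀ hX1 (by norm_num)
      have h4 := Real.rpow_le_rpow (by positivity) h3 (z := (1 / 40 : ℝ)) (by norm_num)
      have h5 : ((40 : ℕ) : ℝ)⁻¹ = (1 / 40 : ℝ) := by norm_num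
      rw [h5] at h2
      rwa [h2] at h4
    nlinarith
  have hb8 : (n : ℝ) * (1 / c.b ^ (1 / 8 : ℝ)) ≤ 1 / c.b ^ (1 / 10 : ℝ) := by
    have h1 : c.b ^ (1 / 8 : ℝ) = c.b ^ (1 / 10 : ℝ) * c.b ^ (1 / 40 : ℝ) := by
      rw [← Real.rpow_add hb0]; norm_num
    have h2 : 0 < c.b ^ (1 / 10 : ℝ) := Real.rpow_pos_of_pos hb0 _
    have h3 : 0 < c.b ^ (1 / 40 : ℝ) := Real.rpow_pos_of_pos hb0 _
    rw [h1, mul_one_div, div_le_div_iff₀ (by positivity) h2]
    nlinarith
  have hX90 : (2 * n : ℝ) * (1 / c.X ^ 90) ≤ 1 / c.X ^ 80 := by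
    rw [mul_one_div, div_le_div_iff₀ (by positivity) (by positivity)]
    calc (2 * n : ℝ) * c.X ^ 80 ≤ c.X ^ 2 * c.X ^ 80 :=
          mul_le_mul_of_nonneg_right hnX (by positivity)
      _ = c.X ^ 82 := by ring
      _ ≤ c.X ^ 90 := pow_le_pow_right₀ hX1 (by norm_num)
      _ = 1 * c.X ^ 90 := (one_mul _).symm
  have hsplit : ∑ x, ∑ y, (g.aB lv x y - g.mB x y + (g.aC lv x y - g.mC m x y)) * (f x - f' y) =
      ∑ x, ∑ y, (g.aB lv x y - g.mB x y) * (f x - f' y) +
        ∑ x, ∑ y, (g.aC lv x y - g.mC m x y) * (f x - f' y) := by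
    rw [← Finset.sum_add_distrib]
    refine Finset.sum_congr rfl fun x _ => ?_
    rw [← Finset.sum_add_distrib]
    exact Finset.sum_congr rfl fun y _ => by ring
  rw [hsplit]
  refine (abs_add_le _ _).trans ((add_le_add hSB hSC).trans ?_)
  calc (n : ℝ) * (1 / c.X ^ 90 * β0) + n * (1 / c.X ^ 90 * β0 + 1 / c.b ^ (1 / 8 : ℝ) * β1)
      = (2 * n) * (1 / c.X ^ 90) * β0 + n * (1 / c.b ^ (1 / 8 : ℝ)) * β1 := by ring
    _ ≤ 1 / c.X ^ 80 * β0 + 1 / c.b ^ (1 / 10 : ℝ) * β1 :=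
        add_le_add (mul_le_mul_of_nonneg_right hX90 hβ0) (mul_le_mul_of_nonneg_right hb8 hβ1)

end

end Pool.Agent.Lib.MP_688fd0_co.TF.H80
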