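import Pool.Agent.Lib.MP_688fd0_co.TF.Compat

/-!
# Theorem F, module HUB (5.4): hub averages
-/

namespace Pool.Agent.Lib.MP_688fd0_co.TF.H80

open Pool.Agent.Lib.MP_688fd0_co.TE

open Finset

universe u

/-! ### Averages -/

theorem avg_bound {G : Type*} [Fintype G] {w f L : G → ℝ} {a K M : ℝ} (hw : ∀ x, 0 ≤ w x)
    (hM : 0 < M) (hS : 1 / M ≤ ∑ x, w x) (hL : ∀ x, 0 ≤ L x)
    (h : ∀ x, w x ≠ 0 → |f x - a| ≤ L x + K) :
    |(∑ x, w x * f x) / (∑ x, w x) - a| ≤ M * ∑ x, w x * L x + K := by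
  set S := ∑ x, w x with hSdef
  have hS0 : 0 < S := lt_of_lt_of_le (by positivity) hS
  have h1 : (∑ x, w x * f x) / S - a = (∑ x, w x * (f x - a)) / S := by
    rw [eq_div_iff hS0.ne', sub_mul, div_mul_cancel₀ _ hS0.ne']
    simp only [mul_sub, Finset.sum_sub_distrib, ← Finset.sum_mul]
    rw [← hSdef]; ring
  rw [h1, abs_div, abs_of_pos hS0, div_le_iff₀ hS0]
  calc |∑ x, w x * (f x - a)| ≤ ∑ x, |w x * (f x - a)| := Finset.abs_sum_le_sum_abs _ _
    _ ≤ ∑ x, w x * (L x + K) := by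
      apply Finset.sum_le_sum
      intro x _
      rw [abs_mul, abs_of_nonneg (hw x)]
      by_cases hx : w x = 0
      · rw [hx]; simp
      · exact mul_le_mul_of_nonneg_left (h x hx) (hw x)
    _ = ∑ x, w x * L x + K * S := by
      simp only [mul_add, Finset.sum_add_distrib, ← Finset.sum_mul]
      rw [← hSdef]; ring
    _ ≤ (M * ∑ x, w x * L x + K) * S := by
      have h2 : 0 ≤ ∑ x, w x * L x := Finset.sum_nonneg fun x _ => mul_nonneg (hw x) (hL x)
      have h3 : 1 ≤ M * S := by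
        rw [div_le_iff₀ hM] at hS; linarith
      nlinarith

/-! ### Words -/

section words

variable {G : Type*} [Group G]

theorem word_one {L : Finset G} {s : G} (hs : s ∈ L) : word L 1 s :=
  ⟨[s], rfl, by simpa using hs, by simp⟩

theorem word_mul {L : Finset G} {i j : ℕ} {a b : G} (ha : word L i a) (hb : word L j b) :
    word L (i + j) (a * b) := by
  obtain ⟨l, h1, h2, h3⟩ := ha
  obtain ⟨l', h1', h2', h3'⟩ := hb
  refine ⟨l ++ l', by simp [h1, h1'], ?_, by simp [h3, h3']⟩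
  intro s hs
  rcases List.mem_append.1 hs with h | h
  · exact h2 s h
  · exact h2' s h

theorem oddW_three {L : Finset G} {a b d : G} (ha : a ∈ L) (hb : b ∈ L) (hd : d ∈ L) :
    oddW L 9 (a * b * d) :=
  ⟨3, ⟨1, rfl⟩, by norm_num, word_mul (word_mul (word_one ha) (word_one hb)) (word_one hd)⟩

theorem oddW_ext {L : Finset G} {a b d : G} (ha : a ∈ L) (hb : oddW L 7 b) (hd : d ∈ L) :
    oddW L 9 (a * b * d) := by
  obtain ⟨j, hj, hj7, hw⟩ := hb
  refine ⟨1 + j + 1, ?_, by omega, word_mul (word_mul (word_one ha) hw) (word_one hd)⟩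
  obtain ⟨r, hr⟩ := hj
  exact ⟨r + 1, by omega⟩

end words

section main

variable {G : Type u} [Group G] [Fintype G] [DecidableEq G]

theorem UM_ne {S : Finset G} {x y : G} (h : UM S x y ≠ 0) : x⁻¹ * y ∈ S := by
  by_contra hn
  apply h
  unfold UM
  rw [ind_not hn, zero_div]

theorem sum_UM_left {S : Finset G} (hD : DS (UM S)) (L : G → ℝ) :
    ∑ z, ∑ x, UM S z x * L x = ∑ x, L x := by
  rw [Finset.sum_comm]
  refine Finset.sum_congr rfl fun x _ => ?_
  rw [← Finset.sum_mul, hD.col, one_mul]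

variable {c : Ctx G} {N : ℕ} (g : Gad c N) {m : ℕ} [NeZero m] (lv : G → ZMod m)

theorem nR_ge (he2 : g.e2 lv) (i : ZMod m) (z : G) : 1 / (2 * m : ℝ) ≤ g.nR lv i z := by
  refine ((he2 z i).1).trans ?_
  unfold Gad.nR
  refine Finset.sum_le_sum fun x _ => ?_
  refine mul_le_mul_of_nonneg_left ?_ ?_
  · exact ind_mono fun h => ⟨Or.inl h.1, h.2⟩
  · unfold UM
    exact div_nonneg (ind_nonneg _) (Nat.cast_nonneg _)

theorem nC_ge (he2 : g.e2 lv) (i : ZMod m) (z : G) : 1 / (2 * m : ℝ) ≤ g.nC lv i z := by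
  refine ((he2 z (i + 1)).1).trans ?_
  unfold Gad.nC
  refine Finset.sum_le_sum fun x _ => ?_
  refine mul_le_mul_of_nonneg_left ?_ ?_
  · exact ind_mono fun h => ⟨Or.inl h.1, h.2⟩
  · unfold UM
    exact div_nonneg (ind_nonneg _) (Nat.cast_nonneg _)

theorem m_pos : (0 : ℝ) < m := by
  have := NeZero.pos m
  exact_mod_cast this

/-- Average of rows against a constant. -/
theorem Uh_bound (he2 : g.e2 lv) (u L : G → ℝ) (i : ZMod m) (z : G) (a K : ℝ)
    (hL : ∀ x, 0 ≤ L x)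
    (h : ∀ x, g.RR x → lv x = i → z⁻¹ * x ∈ c.B → |u x - a| ≤ L x + K) :
    |g.Uh lv u i z - a| ≤ 2 * m * ∑ x, UM c.B z x * L x + K := by
  have hm := m_pos (m := m)
  have hUM : ∀ x, 0 ≤ UM c.B z x := fun x => by
    unfold UM
    exact div_nonneg (ind_nonneg _) (Nat.cast_nonneg _)
  have h1 := avg_bound (w := fun x => UM c.B z x * ind (g.RR x ∧ lv x = i)) (f := u) (L := L)
    (a := a) (K := K) (M := 2 * m) (fun x => mul_nonneg (hUM x) (ind_nonneg _))
    (by linarith) (nR_ge g lv he2 i z) hL (by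
      intro x hx
      have h2 : UM c.B z x ≠ 0 := left_ne_zero_of_mul hx
      have h3 : ind (g.RR x ∧ lv x = i) ≠ 0 := right_ne_zero_of_mul hx
      have h4 : g.RR x ∧ lv x = i := by
        by_contra hn
        exact h3 (ind_not hn)
      exact h x h4.1 h4.2 (UM_ne h2))
  refine h1.trans ?_
  have h2 : ∑ x, UM c.B z x * ind (g.RR x ∧ lv x = i) * L x ≤ ∑ x, UM c.B z x * L x := by
    refine Finset.sum_le_sum fun x _ => ?_
    refine mul_le_mul_of_nonneg_right ?_ (hL x)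
    calc UM c.B z x * ind (g.RR x ∧ lv x = i) ≤ UM c.B z x * 1 :=
          mul_le_mul_of_nonneg_left (ind_le_one _) (hUM x)
      _ = _ := mul_one _
  have h3 := mul_le_mul_of_nonneg_left h2 (show (0 : ℝ) ≤ 2 * m by linarith)
  linarith

/-- Average of columns against a constant. -/
theorem Vh_bound (he2 : g.e2 lv) (v L : G → ℝ) (i : ZMod m) (z : G) (a K : ℝ)
    (hL : ∀ x, 0 ≤ L x)
    (h : ∀ x, g.CC x → lv x = i + 1 → z⁻¹ * x ∈ c.B → |v x - a| ≤ L x + K) :
    |g.Vh lv v i z - a| ≤ 2 * m * ∑ x, UM c.B z x * L x + K := by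
  have hm := m_pos (m := m)
  have hUM : ∀ x, 0 ≤ UM c.B z x := fun x => by
    unfold UM
    exact div_nonneg (ind_nonneg _) (Nat.cast_nonneg _)
  have h1 := avg_bound (w := fun x => UM c.B z x * ind (g.CC x ∧ lv x = i + 1)) (f := v) (L := L)
    (a := a) (K := K) (M := 2 * m) (fun x => mul_nonneg (hUM x) (ind_nonneg _))
    (by linarith) (nC_ge g lv he2 i z) hL (by
      intro x hx
      have h2 : UM c.B z x ≠ 0 := left_ne_zero_of_mul hx
      have h3 : ind (g.CC x ∧ lv x = i + 1) ≠ 0 := right_ne_zero_of_mul hx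
      have h4 : g.CC x ∧ lv x = i + 1 := by
        by_contra hn
        exact h3 (ind_not hn)
      exact h x h4.1 h4.2 (UM_ne h2))
  refine h1.trans ?_
  have h2 : ∑ x, UM c.B z x * ind (g.CC x ∧ lv x = i + 1) * L x ≤ ∑ x, UM c.B z x * L x := by
    refine Finset.sum_le_sum fun x _ => ?_
    refine mul_le_mul_of_nonneg_right ?_ (hL x)
    calc UM c.B z x * ind (g.CC x ∧ lv x = i + 1) ≤ UM c.B z x * 1 :=
          mul_le_mul_of_nonneg_left (ind_le_one _) (hUM x)
      _ = _ := mul_one _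
  have h3 := mul_le_mul_of_nonneg_left h2 (show (0 : ℝ) ≤ 2 * m by linarith)
  linarith

/-- (5.6) for an alphabet `L` containing `B`. -/
theorem UV_bound (hB : ∀ s ∈ c.B, s⁻¹ ∈ c.B) (he2 : g.e2 lv) (u v LX LY : G → ℝ) (i : ZMod m)
    (A : Finset G) (hBA : c.B ⊆ A) (hX0 : ∀ x, 0 ≤ LX x) (hY0 : ∀ y, 0 ≤ LY y)
    (hL : ∀ x y, g.RR x → g.CC y → lv x = i → lv y = i + 1 → oddW A 9 (x⁻¹ * y) →
      |u x - v y| ≤ LX x + LY y) (z z' : G) (hz : oddW A 7 (z⁻¹ * z')) :
    |g.Uh lv u i z - g.Vh lv v i z'| ≤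
      2 * m * ∑ x, UM c.B z x * LX x + 2 * m * ∑ y, UM c.B z' y * LY y := by
  apply Uh_bound g lv he2 u LX i z _ _ hX0
  intro x hx hlx hzx
  rw [abs_sub_comm]
  have := Vh_bound g lv he2 v LY i z' (u x) (LX x) hY0 (by
    intro y hy hly hzy
    rw [abs_sub_comm, add_comm]
    refine hL x y hx hy hlx hly ?_
    have h1 : x⁻¹ * y = (z⁻¹ * x)⁻¹ * (z⁻¹ * z') * (z'⁻¹ * y) := by group
    rw [h1]
    exact oddW_ext (hBA (hB _ hzx)) hz (hBA hzy))
  linarith

end main

end Pool.Agent.Lib.MP_688fd0_co.TF.H80
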