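import Pool.Agent.Lib.MP_688fd0_co.TF.Compat
import Pool.Agent.Lib.MP_688fd0_co.TF.H80.Hub

/-!
# Theorem F, module HUB1: (5.6), (5.7)
-/

namespace Pool.Agent.Lib.MP_688fd0_co.TF.H80

open Pool.Agent.Lib.MP_688fd0_co.TE

open Finset

universe u

section main

variable {G : Type u} [Group G] [Fintype G] [DecidableEq G]

theorem m_two {c : Ctx G} (hX : (10 ^ 6 : ℝ) ≤ c.X) {m : ℕ} (hm : c.mOK m) : 2 ≤ m := by
  have h1 : (2 : ℝ) ≤ c.X ^ 1000 := by
    calc (2 : ℝ) ≤ 10 ^ 6 := by norm_num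
      _ ≤ c.X := hX
      _ = c.X ^ 1 := (pow_one _).symm
      _ ≤ c.X ^ 1000 := pow_le_pow_right₀ (le_trans (by norm_num) hX) (by norm_num)
  have h2 := h1.trans hm.1
  exact_mod_cast h2

theorem succ_ne {m : ℕ} (hm : 2 ≤ m) (i : ZMod m) : i ≠ i + 1 := by
  intro h
  have h1 : (1 : ZMod m) = 0 := by
    have := h
    rw [left_eq_add] at this
    exact this
  have h2 : ((1 : ℕ) : ZMod m) = 0 := by simpa using h1
  rw [ZMod.natCast_eq_zero_iff] at h2
  have := Nat.le_of_dvd one_pos h2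
  omega

theorem UM_symm (hmat : MAT_S.{u}) (c : Ctx G) (x y : G) : UM c.B x y = UM c.B y x := by
  obtain ⟨h1, -⟩ := hmat G
  have h2 := (h1 c.B c.hB).2.2
  have h3 := congrFun (congrFun h2 y) x
  rw [Matrix.transpose_apply] at h3
  exact h3

variable {c : Ctx G} {N : ℕ} (g : Gad c N) {m : ℕ} [NeZero m] (lv : G → ZMod m)

/-- Summation of a three term bound. -/
theorem sum3 (hD : DS (UM c.B)) (hs : ∀ x y, UM c.B x y = UM c.B y x) (P : G → Prop)
    (f : G → G → ℝ) (LX ell : G → ℝ) (E M : ℝ)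
    (hLX : ∀ x, 0 ≤ LX x) (hell : ∀ z, 0 ≤ ell z) (hE : ∑ z, ell z ≤ E)
    (hM : ∀ z, ∑ x, UM c.B z x * ind (P x) ≤ M) (hM0 : 0 ≤ M)
    (hf : ∀ x z, P x → UM c.B x z ≠ 0 →
      f x z ≤ LX x + (2 * ell z + 4 * ∑ z'', UM c.B z z'' * ell z'')) :
    ∑ x, ind (P x) * ∑ z, UM c.B x z * f x z ≤ ∑ x, LX x + 6 * M * E := by
  have hUM : ∀ x y, 0 ≤ UM c.B x y := hD.nn
  set r : G → ℝ := fun z => 2 * ell z + 4 * ∑ z'', UM c.B z z'' * ell z'' with hr
  have hr0 : ∀ z, 0 ≤ r z := fun z => by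
    have := Finset.sum_nonneg fun z'' (_ : z'' ∈ Finset.univ) => mul_nonneg (hUM z z'') (hell z'')
    have h2 := hell z
    simp only [hr]
    linarith
  have h1 : ∀ x, ind (P x) * ∑ z, UM c.B x z * f x z ≤
      LX x + ∑ z, ind (P x) * (UM c.B x z * r z) := by
    intro x
    by_cases hx : P x
    · rw [ind_of hx, one_mul]
      calc ∑ z, UM c.B x z * f x z ≤ ∑ z, (UM c.B x z * LX x + 1 * (UM c.B x z * r z)) := by
            refine Finset.sum_le_sum fun z _ => ?_
            by_cases hz : UM c.B x z = 0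
            · rw [hz]; simp
            · have h2 := mul_le_mul_of_nonneg_left (hf x z hx hz) (hUM x z)
              have h3 : UM c.B x z * (LX x + r z) = UM c.B x z * LX x + 1 * (UM c.B x z * r z) := by
                ring
              rw [← h3]
              exact h2
        _ = LX x + ∑ z, 1 * (UM c.B x z * r z) := by
            rw [Finset.sum_add_distrib, ← Finset.sum_mul, hD.row, one_mul]
    · rw [ind_not hx, zero_mul]
      simp only [zero_mul, Finset.sum_const_zero, add_zero]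
      exact hLX x
  have h2 : ∑ x, ∑ z, ind (P x) * (UM c.B x z * r z) ≤ M * ∑ z, r z := by
    rw [Finset.sum_comm, Finset.mul_sum]
    refine Finset.sum_le_sum fun z _ => ?_
    have h3 : ∑ x, ind (P x) * (UM c.B x z * r z) = (∑ x, UM c.B z x * ind (P x)) * r z := by
      rw [Finset.sum_mul]
      refine Finset.sum_congr rfl fun x _ => ?_
      rw [hs x z]; ring
    rw [h3]
    exact mul_le_mul_of_nonneg_right (hM z) (hr0 z)
  have h4 : ∑ z, r z = 6 * ∑ z, ell z := by
    simp only [hr, Finset.sum_add_distrib, ← Finset.mul_sum]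
    rw [sum_UM_left hD]
    ring
  calc ∑ x, ind (P x) * ∑ z, UM c.B x z * f x z
      ≤ ∑ x, (LX x + ∑ z, ind (P x) * (UM c.B x z * r z)) := Finset.sum_le_sum fun x _ => h1 x
    _ = ∑ x, LX x + ∑ x, ∑ z, ind (P x) * (UM c.B x z * r z) := Finset.sum_add_distrib
    _ ≤ ∑ x, LX x + M * ∑ z, r z := by linarith
    _ = ∑ x, LX x + 6 * M * ∑ z, ell z := by rw [h4]; ring
    _ ≤ _ := by
      have := mul_le_mul_of_nonneg_left hE (show (0 : ℝ) ≤ 6 * M by linarith)
      linarith

/-- Averaging the bound of one point against another over a third point. -/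
theorem avg_third (hD : DS (UM c.B)) (a b L K : ℝ) (v e : G → ℝ) (z : G)
    (h1 : ∀ z'', z⁻¹ * z'' ∈ c.B → |a - v z''| ≤ L + 2 * e z'')
    (h2 : ∀ z'', z⁻¹ * z'' ∈ c.B → |v z'' - b| ≤ 2 * e z'' + 2 * K) :
    |a - b| ≤ L + (2 * K + 4 * ∑ z'', UM c.B z z'' * e z'') := by
  have h3 : ∀ z'', UM c.B z z'' * |a - b| ≤ UM c.B z z'' * (L + 2 * K) +
      4 * (UM c.B z z'' * e z'') := by
    intro z''
    by_cases hz : UM c.B z z'' = 0
    · rw [hz]; simp
    · have hB := UM_ne hz
      have h4 : |a - b| ≤ (L + 2 * K) + 4 * e z'' := by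
        have := abs_sub_le a (v z'') b
        have h5 := h1 z'' hB
        have h6 := h2 z'' hB
        linarith
      have h7 := mul_le_mul_of_nonneg_left h4 (hD.nn z z'')
      linarith
  have h8 := Finset.sum_le_sum fun z'' (_ : z'' ∈ Finset.univ) => h3 z''
  rw [← Finset.sum_mul, hD.row, one_mul, Finset.sum_add_distrib, ← Finset.sum_mul, hD.row, one_mul,
    ← Finset.mul_sum] at h8
  linarith

end main

theorem hub1 (hmat : MAT_S.{u}) (hnum : NUMC_S.{u}) : HUB1F_S.{u} := by
  intro G _ _ _ c N g m _ lv hm hP0 he2 u v i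
  obtain ⟨hX, -⟩ := hnum G c
  have hm2 := m_two hX hm
  have hm0 := m_pos (m := m)
  have hD : DS (UM c.B) := by
    obtain ⟨h1, -⟩ := hmat G
    exact (h1 c.B c.hB).1
  have hs := UM_symm hmat c
  obtain ⟨LX, LY, hX0, hY0, hXs, hYs, hL⟩ := hP0 u v i
  have hL' : ∀ x y, g.RR x → g.CC y → lv x = i → lv y = i + 1 → oddW c.B 9 (x⁻¹ * y) →
      |u x - v y| ≤ LX x + LY y := by
    intro x y hx hy hlx hly ho
    refine hL x y hx hy hlx hly ?_ ho
    rintro rfl
    exact succ_ne hm2 i (hlx.symm.trans hly)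
  set ell : G → ℝ := fun z => m * ∑ x, UM c.B z x * LX x + m * ∑ y, UM c.B z y * LY y with hell
  have hpX : ∀ z, 0 ≤ ∑ x, UM c.B z x * LX x := fun z =>
    Finset.sum_nonneg fun x _ => mul_nonneg (hD.nn _ _) (hX0 _)
  have hpY : ∀ z, 0 ≤ ∑ x, UM c.B z x * LY x := fun z =>
    Finset.sum_nonneg fun x _ => mul_nonneg (hD.nn _ _) (hY0 _)
  have hell0 : ∀ z, 0 ≤ ell z := fun z =>
    add_nonneg (mul_nonneg hm0.le (hpX z)) (mul_nonneg hm0.le (hpY z))
  have hsum : ∑ z, ell z ≤ 2 * m * c.X ^ 20 * g.bc lv u v i := by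
    simp only [hell, Finset.sum_add_distrib, ← Finset.mul_sum]
    rw [sum_UM_left hD, sum_UM_left hD]
    have h1 := mul_le_mul_of_nonneg_left hXs hm0.le
    have h2 := mul_le_mul_of_nonneg_left hYs hm0.le
    nlinarith
  have huv : ∀ z z', oddW c.B 7 (z⁻¹ * z') →
      |g.Uh lv u i z - g.Vh lv v i z'| ≤ 2 * ell z + 2 * ell z' := by
    intro z z' hz
    have := UV_bound g lv c.hB.inv he2 u v LX LY i c.B (Finset.Subset.refl _) hX0 hY0 hL' z z' hz
    refine this.trans ?_
    have h1 := mul_nonneg hm0.le (hpY z)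
    have h2 := mul_nonneg hm0.le (hpX z')
    simp only [hell]
    linarith
  have hb0 : 0 ≤ g.bc lv u v i := by
    have h1 : 0 ≤ c.X ^ 20 * g.bc lv u v i :=
      le_trans (Finset.sum_nonneg fun x _ => hX0 x) hXs
    have h2 : 0 < c.X ^ 20 := pow_pos (by linarith) _
    exact nonneg_of_mul_nonneg_right h1 h2
  have hfin : c.X ^ 20 * g.bc lv u v i + 6 * (2 / m) * (2 * m * c.X ^ 20 * g.bc lv u v i) ≤
      c.X ^ 22 * g.bc lv u v i := by
    have h1 : 6 * (2 / (m : ℝ)) * (2 * m * c.X ^ 20 * g.bc lv u v i) =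
        24 * (c.X ^ 20 * g.bc lv u v i) := by
      field_simp
      ring
    rw [h1]
    have h2 : (25 : ℝ) ≤ c.X ^ 2 := by nlinarith
    have h3 : c.X ^ 22 * g.bc lv u v i = c.X ^ 2 * (c.X ^ 20 * g.bc lv u v i) := by ring
    rw [h3]
    have h4 : 0 ≤ c.X ^ 20 * g.bc lv u v i := mul_nonneg (pow_nonneg (by linarith) _) hb0
    nlinarith
  refine ⟨ell, hell0, hsum, huv, ?_, ?_⟩
  · have := sum3 hD hs (fun x => g.RR x ∧ lv x = i) (fun x z => |u x - g.Uh lv u i z|) LX ell
      (2 * m * c.X ^ 20 * g.bc lv u v i) (2 / m) hX0 hell0 hsum (fun z => (he2 z i).2.1)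
      (by positivity) (by
        intro x z hx hz
        have hxz := UM_ne hz
        refine avg_third hD _ _ _ _ (fun z'' => g.Vh lv v i z'') ell z ?_ ?_
        · intro z'' hzz
          have h1 := Vh_bound g lv he2 v LY i z'' (u x) (LX x) hY0 (by
            intro y hy hly hzy
            rw [abs_sub_comm, add_comm]
            refine hL' x y hx.1 hy hx.2 hly ?_
            have h1 : x⁻¹ * y = (x⁻¹ * z) * (z⁻¹ * z'') * (z''⁻¹ * y) := by group
            rw [h1]
            exact oddW_three hxz hzz hzy)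
          rw [abs_sub_comm] at h1
          have h2 := mul_nonneg hm0.le (hpX z'')
          refine h1.trans ?_
          simp only [hell]
          linarith
        · intro z'' hzz
          have h1 := huv z z'' ⟨1, ⟨0, rfl⟩, by norm_num, word_one hzz⟩
          rw [abs_sub_comm]
          linarith)
    linarith
  · have := sum3 hD hs (fun x => g.CC x ∧ lv x = i + 1) (fun x z => |v x - g.Vh lv v i z|) LY ell
      (2 * m * c.X ^ 20 * g.bc lv u v i) (2 / m) hY0 hell0 hsum (fun z => (he2 z (i + 1)).2.2)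
      (by positivity) (by
        intro x z hx hz
        have hxz := UM_ne hz
        refine avg_third hD _ _ _ _ (fun z'' => g.Uh lv u i z'') ell z ?_ ?_
        · intro z'' hzz
          have h1 := Uh_bound g lv he2 u LX i z'' (v x) (LY x) hX0 (by
            intro y hy hly hzy
            refine hL' y x hy hx.1 hly hx.2 ?_
            have h1 : y⁻¹ * x = (z''⁻¹ * y)⁻¹ * (z⁻¹ * z'')⁻¹ * (x⁻¹ * z)⁻¹ := by group
            rw [h1]
            exact oddW_three (c.hB.inv _ hzy) (c.hB.inv _ hzz) (c.hB.inv _ hxz))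
          rw [abs_sub_comm] at h1
          have h2 := mul_nonneg hm0.le (hpY z'')
          refine h1.trans ?_
          simp only [hell]
          linarith
        · intro z'' hzz
          have h1 := huv z'' z ⟨1, ⟨0, rfl⟩, by norm_num, word_one (by
            have h2 : z''⁻¹ * z = (z⁻¹ * z'')⁻¹ := by group
            rw [h2]
            exact c.hB.inv _ hzz)⟩
          linarith)
    linarith

end Pool.Agent.Lib.MP_688fd0_co.TF.H80
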