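import Pool.Agent.Lib.MP_688fd0_co.TF.H80.Hub1

/-!
# Theorem F, module HUB: assembly of 5.4
-/

namespace Pool.Agent.Lib.MP_688fd0_co.TF.H80

open Pool.Agent.Lib.MP_688fd0_co.TE

open Finset

universe u

/-! ### The cycle of levels -/

theorem cyc_path {m : ℕ} [NeZero m] (f : ZMod m → ℝ) (i j : ZMod m) :
    |f i - f j| ≤ ∑ k : ZMod m, |f k - f (k + 1)| := by
  have h1 : ∀ n : ℕ, |f i - f (i + n)| ≤ ∑ k ∈ Finset.range n, |f (i + k) - f (i + k + 1)| := by
    intro n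
    induction n with
    | zero => simp
    | succ n ih =>
      rw [Finset.sum_range_succ]
      have h2 := abs_sub_le (f i) (f (i + n)) (f (i + (n + 1 : ℕ)))
      have h3 : (i + ((n + 1 : ℕ) : ZMod m)) = i + n + 1 := by push_cast; ring
      rw [h3] at h2 ⊢
      linarith
  have h2 := h1 (j - i).val
  have h3 : i + (((j - i).val : ℕ) : ZMod m) = j := by
    rw [ZMod.natCast_zmod_val]; ring
  rw [h3] at h2
  refine h2.trans ?_
  have h4 : Set.InjOn (fun k : ℕ => i + (k : ZMod m)) (Finset.range (j - i).val : Set ℕ) := by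
    intro a ha b hb hab
    have hlt := ZMod.val_lt (j - i)
    have ha' : a < m := (Finset.mem_range.1 (by simpa using ha)).trans hlt
    have hb' : b < m := (Finset.mem_range.1 (by simpa using hb)).trans hlt
    have h5 : (a : ZMod m) = (b : ZMod m) := add_left_cancel hab
    have h6 := congrArg ZMod.val h5
    rwa [ZMod.val_natCast_of_lt ha', ZMod.val_natCast_of_lt hb'] at h6
  have h5 := Finset.sum_image (f := fun k : ZMod m => |f k - f (k + 1)|) h4
  rw [← h5]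
  exact Finset.sum_le_univ_sum_of_nonneg fun k => abs_nonneg _

section main

variable {G : Type u} [Group G] [Fintype G] [DecidableEq G]
  {c : Ctx G} {N : ℕ} (g : Gad c N) {m : ℕ} [NeZero m] (lv : G → ZMod m)

theorem aB_nonneg (x y : G) : 0 ≤ g.aB lv x y := by
  unfold Gad.aB
  refine mul_nonneg (div_nonneg (Nat.cast_nonneg _) ?_) (ind_nonneg _)
  exact mul_nonneg (by norm_num) (Nat.cast_nonneg _)

theorem aC_nonneg (hX : 0 ≤ c.X) (x y : G) : 0 ≤ g.aC lv x y := by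
  unfold Gad.aC
  exact mul_nonneg (div_nonneg (div_nonneg zero_le_one (pow_nonneg hX _)) (Nat.cast_nonneg _))
    (ind_nonneg _)

theorem bc_nonneg (hX : 0 ≤ c.X) (u v : G → ℝ) (i : ZMod m) : 0 ≤ g.bc lv u v i :=
  Finset.sum_nonneg fun x _ => Finset.sum_nonneg fun y _ =>
    mul_nonneg (mul_nonneg (ind_nonneg _) (add_nonneg (aB_nonneg g lv x y)
      (aC_nonneg g lv hX x y))) (abs_nonneg _)

theorem b2_nonneg (u v : G → ℝ) (i : ZMod m) : 0 ≤ g.b2 lv u v i :=
  Finset.sum_nonneg fun x _ => Finset.sum_nonneg fun y _ =>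
    mul_nonneg (mul_nonneg (ind_nonneg _) (aB_nonneg g lv x y)) (abs_nonneg _)

theorem sum_bc_le (u v : G → ℝ) : ∑ i, g.bc lv u v i ≤ g.bb lv u v :=
  Finset.sum_le_sum fun i _ => by
    have := b2_nonneg g lv u v i
    linarith

theorem sum_all_le (u v : G → ℝ) :
    ∑ i, (g.bc lv u v i + g.b2 lv u v i + g.bc lv u v (i + 1)) ≤ 2 * g.bb lv u v := by
  rw [Finset.sum_add_distrib]
  have h1 : ∑ i : ZMod m, g.bc lv u v (i + 1) = ∑ i, g.bc lv u v i :=
    Equiv.sum_comp (Equiv.addRight (1 : ZMod m)) fun i => g.bc lv u v i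
  rw [h1]
  have h2 := sum_bc_le g lv u v
  have h3 : ∑ i, (g.bc lv u v i + g.b2 lv u v i) = g.bb lv u v := rfl
  rw [h3]
  linarith

/-- Splitting a sum by levels. -/
theorem split_lev (P : G → Prop) (h : ZMod m → G → ℝ) (t : ZMod m) :
    ∑ x, ind (P x) * h (lv x - t) x = ∑ i, ∑ x, ind (P x ∧ lv x = i + t) * h i x := by
  rw [Finset.sum_comm]
  refine Finset.sum_congr rfl fun x _ => ?_
  rw [Finset.sum_eq_single (lv x - t)]
  · by_cases hx : P x
    · rw [ind_of hx, ind_of (⟨hx, by ring⟩ : P x ∧ lv x = lv x - t + t)]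
    · rw [ind_not hx, ind_not fun h => hx h.1]
  · intro i _ hi
    rw [ind_not, zero_mul]
    rintro ⟨-, h2⟩
    apply hi
    rw [h2]; ring
  · intro h; exact absurd (Finset.mem_univ _) h

theorem mean_abs (f : ZMod m → ℝ) (a : ZMod m → ℝ) :
    |(∑ i, f i) / m - (∑ i, a i) / m| ≤ (∑ i, |f i - a i|) / m := by
  have hm := m_pos (m := m)
  rw [← sub_div, abs_div, abs_of_pos hm, ← Finset.sum_sub_distrib]
  exact div_le_div_of_nonneg_right (Finset.abs_sum_le_sum_abs _ _) hm.le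

/-- Distance of one of the functions to the mean. -/
theorem to_mean (F : ZMod m → G → ℝ) (D : ZMod m → ℝ)
    (hF : ∀ i, ∑ z, |F i z - F (i + 1) z| ≤ D i) (i : ZMod m) :
    ∑ z, |F i z - (∑ j, F j z) / m| ≤ ∑ k, D k := by
  have hm := m_pos (m := m)
  have h1 : ∀ z, |F i z - (∑ j, F j z) / m| ≤ ∑ k, |F k z - F (k + 1) z| := by
    intro z
    have h2 : F i z = (∑ _j : ZMod m, F i z) / m := by
      rw [Finset.sum_const, Finset.card_univ, ZMod.card, nsmul_eq_mul]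
      field_simp
    have h3 := mean_abs (fun _ => F i z) (fun j => F j z)
    rw [← h2] at h3
    refine h3.trans ?_
    rw [div_le_iff₀ hm]
    have h4 : ∑ j : ZMod m, |F i z - F j z| ≤ ∑ _j : ZMod m, ∑ k, |F k z - F (k + 1) z| :=
      Finset.sum_le_sum fun j _ => cyc_path (fun k => F k z) i j
    refine h4.trans ?_
    rw [Finset.sum_const, Finset.card_univ, ZMod.card, nsmul_eq_mul, mul_comm]
  calc ∑ z, |F i z - (∑ j, F j z) / m| ≤ ∑ z, ∑ k, |F k z - F (k + 1) z| :=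
        Finset.sum_le_sum fun z _ => h1 z
    _ = ∑ k, ∑ z, |F k z - F (k + 1) z| := Finset.sum_comm
    _ ≤ ∑ k, D k := Finset.sum_le_sum fun k _ => hF k

theorem sum_shift (f : G → ℝ) (s : G) : ∑ z, f (z * s) = ∑ z, f z :=
  Equiv.sum_comp (Equiv.mulRight s) f

end main

theorem hub (hnum : NUMC_S.{u}) (hub1 : HUB1F_S.{u}) (hub2 : HUB2F_S.{u}) (hub3 : HUB3F_S.{u}) :
    HUBF_S.{u} := by
  intro G _ _ _ c N g m _ lv hm hlv u v
  obtain ⟨hX, -⟩ := hnum G c
  have hX0 : 0 ≤ c.X := by linarith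
  have hX1 : 1 ≤ c.X := by linarith
  have hm0 := m_pos (m := m)
  have hm1 : (1 : ℝ) ≤ m := by exact_mod_cast NeZero.one_le
  choose ell hell using fun i => hub1 G c N g m lv hm hlv.p0 hlv.e2 u v i
  have hbb : 0 ≤ g.bb lv u v := Finset.sum_nonneg fun i _ =>
    add_nonneg (bc_nonneg g lv hX0 u v i) (b2_nonneg g lv u v i)
  have hsbc := sum_bc_le g lv u v
  have hsall := sum_all_le g lv u v
  have hU : ∀ i, ∑ z, |g.Uh lv u i z - g.Um lv u z| ≤ 2 * (m * c.X ^ 24) * g.bb lv u v := by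
    intro i
    have h1 := to_mean (g.Uh lv u)
      (fun i => m * c.X ^ 24 * (g.bc lv u v i + g.b2 lv u v i + g.bc lv u v (i + 1)))
      (fun i => (hub2 G c N g m lv hm hlv.e2 u v i _ _ (hell i) (hell (i + 1))).1) i
    rw [← Finset.mul_sum] at h1
    have h2 := mul_le_mul_of_nonneg_left hsall
      (mul_nonneg hm0.le (pow_nonneg hX0 24) : (0 : ℝ) ≤ m * c.X ^ 24)
    have h3 : ∑ z, |g.Uh lv u i z - g.Um lv u z| =
      ∑ z, |g.Uh lv u i z - (∑ j, g.Uh lv u j z) / m| := rfl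
    rw [h3]
    linarith
  have hV : ∀ i, ∑ z, |g.Vh lv v i z - g.Vm lv v z| ≤ 2 * (m * c.X ^ 24) * g.bb lv u v := by
    intro i
    have h1 := to_mean (g.Vh lv v)
      (fun i => m * c.X ^ 24 * (g.bc lv u v i + g.b2 lv u v i + g.bc lv u v (i + 1)))
      (fun i => (hub2 G c N g m lv hm hlv.e2 u v i _ _ (hell i) (hell (i + 1))).2) i
    rw [← Finset.mul_sum] at h1
    have h2 := mul_le_mul_of_nonneg_left hsall
      (mul_nonneg hm0.le (pow_nonneg hX0 24) : (0 : ℝ) ≤ m * c.X ^ 24)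
    have h3 : ∑ z, |g.Vh lv v i z - g.Vm lv v z| =
      ∑ z, |g.Vh lv v i z - (∑ j, g.Vh lv v j z) / m| := rfl
    rw [h3]
    linarith
  have h26 : 2 * (m * c.X ^ 24) * g.bb lv u v ≤ m * c.X ^ 26 * g.bb lv u v := by
    have h1 : (2 : ℝ) ≤ c.X ^ 2 := by nlinarith
    have h2 : m * c.X ^ 26 * g.bb lv u v = c.X ^ 2 * (m * c.X ^ 24 * g.bb lv u v) := by ring
    have h3 : 0 ≤ m * c.X ^ 24 * g.bb lv u v :=
      mul_nonneg (mul_nonneg hm0.le (pow_nonneg hX0 24)) hbb
    rw [h2]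
    nlinarith
  have h22 : c.X ^ 22 * ∑ i, g.bc lv u v i ≤ c.X ^ 23 * g.bb lv u v := by
    have h1 := mul_le_mul_of_nonneg_left hsbc (pow_nonneg hX0 22)
    have h2 : c.X ^ 23 * g.bb lv u v = c.X * (c.X ^ 22 * g.bb lv u v) := by ring
    have h3 : 0 ≤ c.X ^ 22 * g.bb lv u v := mul_nonneg (pow_nonneg hX0 22) hbb
    rw [h2]
    nlinarith
  refine ⟨?_, ?_, fun i => (hU i).trans h26, fun i => (hV i).trans h26, ?_, ?_⟩
  · have h1 := split_lev lv g.RR (fun i x => ∑ z, UM c.B x z * |u x - g.Uh lv u i z|) 0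
    simp only [sub_zero, add_zero] at h1
    rw [h1]
    refine le_trans (Finset.sum_le_sum fun i _ => (hell i).a1) ?_
    rw [← Finset.mul_sum]
    exact h22
  · have h1 := split_lev lv g.CC (fun i x => ∑ z, UM c.B x z * |v x - g.Vh lv v i z|) 1
    rw [h1]
    refine le_trans (Finset.sum_le_sum fun i _ => (hell i).a2) ?_
    rw [← Finset.mul_sum]
    exact h22
  · intro s hs
    have h1 : ∀ z, |g.Um lv u z - g.Vm lv v (z * s)| ≤
        (∑ i, (2 * ell i z + 2 * ell i (z * s))) / m := by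
      intro z
      have h2 := mean_abs (fun i => g.Uh lv u i z) (fun i => g.Vh lv v i (z * s))
      refine h2.trans (div_le_div_of_nonneg_right (Finset.sum_le_sum fun i _ => ?_) hm0.le)
      refine (hell i).uv z (z * s) ?_
      simpa using hs
    have h2 : ∑ z, (∑ i, (2 * ell i z + 2 * ell i (z * s))) / m =
        4 / m * ∑ i, ∑ z, ell i z := by
      rw [← Finset.sum_div, Finset.sum_comm]
      have h3 : ∀ i, ∑ z, (2 * ell i z + 2 * ell i (z * s)) = 4 * ∑ z, ell i z := by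
        intro i
        rw [Finset.sum_add_distrib, ← Finset.mul_sum, ← Finset.mul_sum, sum_shift (ell i) s]
        ring
      simp only [h3]
      rw [← Finset.mul_sum]
      ring
    have h3 : ∑ i, ∑ z, ell i z ≤ 2 * m * c.X ^ 20 * ∑ i, g.bc lv u v i := by
      rw [Finset.mul_sum]
      exact Finset.sum_le_sum fun i _ => (hell i).sum
    have h4 : ∑ z, |g.Um lv u z - g.Vm lv v (z * s)| ≤ 4 / m * ∑ i, ∑ z, ell i z := by
      rw [← h2]
      exact Finset.sum_le_sum fun z _ => h1 z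
    have h5 : 4 / m * ∑ i, ∑ z, ell i z ≤ 4 / m * (2 * m * c.X ^ 20 * ∑ i, g.bc lv u v i) :=
      mul_le_mul_of_nonneg_left h3 (by positivity)
    have h6 : 4 / m * (2 * m * c.X ^ 20 * ∑ i, g.bc lv u v i) =
        8 * (c.X ^ 20 * ∑ i, g.bc lv u v i) := by
      field_simp
      ring
    have h7 := mul_le_mul_of_nonneg_left hsbc (pow_nonneg hX0 20)
    have h8 : c.X ^ 24 * g.bb lv u v = c.X ^ 4 * (c.X ^ 20 * g.bb lv u v) := by ring
    have h9 : 0 ≤ c.X ^ 20 * g.bb lv u v := mul_nonneg (pow_nonneg hX0 20) hbb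
    have h10 : (8 : ℝ) ≤ c.X ^ 4 := by
      calc (8 : ℝ) ≤ c.X := by linarith
        _ = c.X ^ 1 := (pow_one _).symm
        _ ≤ c.X ^ 4 := pow_le_pow_right₀ hX1 (by norm_num)
    rw [h8]
    nlinarith
  · intro s hs
    have h1 := hub3 G c N g m lv hm hlv.p1 hlv.e2 u v s hs
    have h2 : ∑ z, |g.Vh lv v 0 (z * s) - g.Vm lv v (z * s)| =
        ∑ z, |g.Vh lv v 0 z - g.Vm lv v z| :=
      sum_shift (fun z => |g.Vh lv v 0 z - g.Vm lv v z|) s
    have h3 : ∑ z, |g.Um lv u z - g.Vm lv v (z * s)| ≤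
        ∑ z, |g.Uh lv u 0 z - g.Um lv u z| + ∑ z, |g.Uh lv u 0 z - g.Vh lv v 0 (z * s)| +
          ∑ z, |g.Vh lv v 0 (z * s) - g.Vm lv v (z * s)| := by
      rw [← Finset.sum_add_distrib, ← Finset.sum_add_distrib]
      refine Finset.sum_le_sum fun z _ => ?_
      have h4 := abs_sub_le (g.Um lv u z) (g.Uh lv u 0 z) (g.Vm lv v (z * s))
      have h5 := abs_sub_le (g.Uh lv u 0 z) (g.Vh lv v 0 (z * s)) (g.Vm lv v (z * s))
      rw [abs_sub_comm (g.Um lv u z) (g.Uh lv u 0 z)] at h4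
      linarith
    rw [h2] at h3
    have h4 := hU 0
    have h5 := hV 0
    have h6 : g.bc lv u v 0 ≤ g.bb lv u v := by
      refine le_trans ?_ hsbc
      exact Finset.single_le_sum (f := fun i => g.bc lv u v i)
        (fun i _ => bc_nonneg g lv hX0 u v i) (Finset.mem_univ 0)
    have h7 : c.X ^ 132 * m ^ 2 * g.bc lv u v 0 ≤ c.X ^ 132 * m ^ 2 * g.bb lv u v :=
      mul_le_mul_of_nonneg_left h6 (by positivity)
    have h8 : (m : ℝ) * c.X ^ 24 ≤ m ^ 2 * c.X ^ 132 := by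
      have h9 : (m : ℝ) ≤ m ^ 2 := by nlinarith
      have h10 : c.X ^ 24 ≤ c.X ^ 132 := pow_le_pow_right₀ hX1 (by norm_num)
      exact mul_le_mul h9 h10 (pow_nonneg hX0 _) (by positivity)
    have h9 := mul_le_mul_of_nonneg_right h8 hbb
    have h10 : c.X ^ 134 * m ^ 2 * g.bb lv u v = c.X ^ 2 * (m ^ 2 * c.X ^ 132 * g.bb lv u v) := by
      ring
    have h11 : (5 : ℝ) ≤ c.X ^ 2 := by nlinarith
    have h12 : 0 ≤ m ^ 2 * c.X ^ 132 * g.bb lv u v := by positivity
    rw [h10]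
    nlinarith

end Pool.Agent.Lib.MP_688fd0_co.TF.H80
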