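import Pool.Agent.Lib.MP_688fd0_co.TE.H15.Avg
import Pool.Agent.Lib.MP_688fd0_co.TF.Iface5

/-! Theorem F, chapter 5: averaging lemmas for `av`, and telescoping with two alternating
functions (port of TE/H15/Avg). -/

namespace Pool.Agent.Lib.MP_688fd0_co.TF.H80

open Pool.Agent.Lib.MP_688fd0_co.TE Pool.Agent.Lib.MP_688fd0_co.TE.H15
open Pool.Agent.Lib.MP_688fd0_co.TF

universe u

section

variable {G : Type u} [Group G] [Fintype G] [DecidableEq G]

/-- difference of two averages as a double average. -/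
theorem av_sub (c : TF.Ctx G) (U0 V0 : G → ℝ) (x y : G) :
    c.av U0 x - c.av V0 y =
      ∑ z, ∑ z', UM c.B x z * UM c.B y z' * (U0 z - V0 z') := by
  have e1 : ∑ z, ∑ z', UM c.B x z * UM c.B y z' * U0 z = c.av U0 x := by
    unfold Ctx.av
    refine Finset.sum_congr rfl fun z _ => ?_
    have : ∑ z', UM c.B x z * UM c.B y z' * U0 z = UM c.B x z * U0 z * ∑ z', UM c.B y z' := by
      rw [Finset.mul_sum]
      exact Finset.sum_congr rfl fun z' _ => by ring
    rw [this, UM_row c.hB.ne, mul_one]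
  have e2 : ∑ z, ∑ z', UM c.B x z * UM c.B y z' * V0 z' = c.av V0 y := by
    rw [Finset.sum_comm]
    unfold Ctx.av
    refine Finset.sum_congr rfl fun z' _ => ?_
    have : ∑ z, UM c.B x z * UM c.B y z' * V0 z' = UM c.B y z' * V0 z' * ∑ z, UM c.B x z := by
      rw [Finset.mul_sum]
      exact Finset.sum_congr rfl fun z _ => by ring
    rw [this, UM_row c.hB.ne, mul_one]
  rw [← e1, ← e2, ← Finset.sum_sub_distrib]
  refine Finset.sum_congr rfl fun z _ => ?_
  rw [← Finset.sum_sub_distrib]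
  exact Finset.sum_congr rfl fun z' _ => by ring

theorem av_abs (c : TF.Ctx G) (U0 V0 : G → ℝ) (x y : G) :
    |c.av U0 x - c.av V0 y| ≤
      ∑ z, ∑ z', UM c.B x z * UM c.B y z' * |U0 z - V0 z'| := by
  rw [av_sub]
  refine (Finset.abs_sum_le_sum_abs _ _).trans (Finset.sum_le_sum fun z _ => ?_)
  refine (Finset.abs_sum_le_sum_abs _ _).trans (Finset.sum_le_sum fun z' _ => ?_)
  rw [abs_mul, abs_of_nonneg (mul_nonneg (UM_nonneg _ _ _) (UM_nonneg _ _ _))]

/-- averaging does not increase the `L¹` distances. -/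
theorem avD (c : TF.Ctx G) (L : Finset G) (hL : c.B ⊆ L) (U0 V0 : G → ℝ) (β : ℝ)
    (h : ∀ s, oddW L 7 s → ∑ z, |U0 z - V0 (z * s)| ≤ β) :
    ∀ s ∈ L, ∑ z, |c.av U0 z - c.av V0 (z * s)| ≤ β := by
  intro s hs
  have hb0 : (c.B.card : ℝ) ≠ 0 := by exact_mod_cast c.hB.ne.card_pos.ne'
  calc ∑ z, |c.av U0 z - c.av V0 (z * s)|
      ≤ ∑ z, ∑ b1 ∈ c.B, ∑ b2 ∈ c.B, (1 / (c.B.card : ℝ)) * ((1 / (c.B.card : ℝ)) *
          |U0 (z * b1) - V0 (z * s * b2)|) := by
        refine Finset.sum_le_sum fun z _ => (av_abs c U0 V0 z (z * s)).trans (le_of_eq ?_)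
        have : ∀ z1, ∑ z', UM c.B z z1 * UM c.B (z * s) z' * |U0 z1 - V0 z'| =
            UM c.B z z1 * ∑ b2 ∈ c.B, (1 / (c.B.card : ℝ)) * |U0 z1 - V0 (z * s * b2)| := by
          intro z1
          rw [← sum_UM c.B (z * s) (fun z' => |U0 z1 - V0 z'|), Finset.mul_sum]
          exact Finset.sum_congr rfl fun z' _ => by ring
        rw [Finset.sum_congr rfl fun z1 _ => this z1,
          sum_UM c.B z (fun z1 => ∑ b2 ∈ c.B, (1 / (c.B.card : ℝ)) * |U0 z1 - V0 (z * s * b2)|)]
        refine Finset.sum_congr rfl fun b1 _ => ?_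
        rw [Finset.mul_sum]
    _ = ∑ b1 ∈ c.B, ∑ b2 ∈ c.B, (1 / (c.B.card : ℝ)) * ((1 / (c.B.card : ℝ)) *
          ∑ z, |U0 (z * b1) - V0 (z * s * b2)|) := by
        rw [Finset.sum_comm]
        refine Finset.sum_congr rfl fun b1 _ => ?_
        rw [Finset.sum_comm]
        refine Finset.sum_congr rfl fun b2 _ => ?_
        rw [Finset.mul_sum, Finset.mul_sum]
    _ ≤ ∑ b1 ∈ c.B, ∑ b2 ∈ c.B, (1 / (c.B.card : ℝ)) * ((1 / (c.B.card : ℝ)) * β) := by
        refine Finset.sum_le_sum fun b1 hb1 => Finset.sum_le_sum fun b2 hb2 => ?_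
        refine mul_le_mul_of_nonneg_left (mul_le_mul_of_nonneg_left ?_ (by positivity))
          (by positivity)
        have h1 : ∑ z, |U0 (z * b1) - V0 (z * s * b2)| =
            ∑ w, |U0 w - V0 (w * (b1⁻¹ * s * b2))| := by
          refine Fintype.sum_equiv (Equiv.mulRight b1) _ _ fun z => ?_
          simp only [Equiv.coe_mulRight]
          congr 3
          group
        rw [h1]
        exact h _ (oddW_three (by norm_num) (hL (c.hB.inv _ hb1)) hs (hL hb2))
    _ = β := by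
        rw [Finset.sum_const, Finset.sum_const, nsmul_eq_mul, nsmul_eq_mul]
        field_simp

theorem alt_WM {c : TF.Ctx G} (τ : Bool) (f g : G → ℝ) (β : ℝ) (hβ : 0 ≤ β)
    (h : ∀ s ∈ Lt c.B c.C τ, ∑ z, |f z - g (z * s)| ≤ β) (j : ℕ) (P : Matrix G G ℝ)
    (hP : P = UM c.B ∨ P = WM c.B c.C τ) :
    ∑ v, ∑ v', P v v' * |alt f g j v - alt f g (j + 1) v'| ≤ β := by
  have hB := alt_bound c.hB f g β hβ (fun s hs => h s (sub_Lt _ _ _ hs)) j
  rcases hP with rfl | rfl
  · exact hB
  · cases τ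
    · simpa [WM] using hB
    · have hC := alt_bound c.hC f g β hβ (fun s hs => h s (sub_Lt' _ _ hs)) j
      have e : ∑ v, ∑ v', WM c.B c.C true v v' * |alt f g j v - alt f g (j + 1) v'| =
          (1 / 2 : ℝ) * (∑ v, ∑ v', UM c.B v v' * |alt f g j v - alt f g (j + 1) v'| +
            ∑ v, ∑ v', UM c.C v v' * |alt f g j v - alt f g (j + 1) v'|) := by
        rw [← Finset.sum_add_distrib, Finset.mul_sum]
        refine Finset.sum_congr rfl fun v _ => ?_
        rw [← Finset.sum_add_distrib, Finset.mul_sum]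
        refine Finset.sum_congr rfl fun v' _ => ?_
        simp only [WM, if_true, Matrix.smul_apply, Matrix.add_apply, smul_eq_mul]
        ring
      rw [e]
      linarith

/-- telescoping along an odd link with alternating functions. -/
theorem tele_eq (hT : TELEF_S.{u}) (c : TF.Ctx G) (τ : Bool) (f g : G → ℝ) (x y : G)
    (ha : c.adm τ true 100 x y) :
    f x - g y = ∑ j ∈ Finset.range (c.len true), ∑ v, ∑ v',
      c.U τ true x y j v v' * (alt f g j v - alt f g (j + 1) v') := by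
  have h := (hT G c τ true x y ha).1 (fun j => alt f g j)
  have h0 : alt f g 0 = f := if_pos (by decide)
  have hn : alt f g (c.len true) = g := by
    apply if_neg
    simp only [Ctx.len, if_true]
    rw [show 6 * c.k + 3 = (6 * c.k + 2) + 1 from rfl, Nat.even_add_one]
    exact not_not.mpr ⟨3 * c.k + 1, by ring⟩
  rw [h0, hn] at h
  exact h

end

end Pool.Agent.Lib.MP_688fd0_co.TF.H80
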